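import Pool.Agent.H43.WR.Utr
import Pool.Agent.H32.KF.Rk2

/-!
# [H47 KN Hor] K3 fibrations (MP_e49dc9_ag): a surface which contains a horizontal curve is horizontal

`hor`: `Pu X F u` (`1`, `u` sections of `F` without common zeros), `y` a curve with `F.y > 0`, `z ⤳ y`: `F.eq z` is a unit at `z` and `u` is transcendental over `k` at `z`.
-/

set_option autoImplicit false

namespace Pool.Agent.H47.KN

open Pool.Agent.H54.RV Pool.Agent.H83.TU Pool.Agent.H83.TK Pool.Agent.H20.TD Pool.Agent.H20.TP Pool.Agent.H32.KF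
open Pool.Agent.H43.WR

variable {k K : Type} [Field k] [Field K] [Algebra k K] {X : Mod k K} {F : Cart X} {u : K}

theorem un_le (hX : IsVar X) {z y : X.P} (hzy : z ⤳ y) {a : K} (ha : Un (X.O y) a) : Un (X.O z) a :=
  ⟨ha.1, hX.spec _ _ hzy ha.2.1, hX.spec _ _ hzy ha.2.2⟩

theorem hor [CharZero k] [IsAlgClosed k] (h : Hyp X) (hP : Pu X F u) {y z : X.P}
    (hy : Algebra.trdeg k (X.kap y) = 1) (hF : 0 < dz h.var y F) (hzy : z ⤳ y) :
    Un (X.O z) (F.eq z) ∧ u ∈ X.O z ∧ Transcendental k (X.rs z u) := by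
  obtain ⟨h1, h2, h3⟩ := u_tr h hP hy hF
  have hz : u ∈ X.O z := h.var.spec _ _ hzy h1.2.1
  refine ⟨?_, hz, ?_⟩
  · have h4 := un_le h.var hzy h2
    have h5 := quo_un F z y hzy
    have e : F.eq z = F.eq y * (F.eq y / F.eq z)⁻¹ := by
      have := F.ne y
      have := F.ne z
      field_simp
    rw [e]
    exact un_mul h4 (un_inv h5)
  · intro hal
    obtain ⟨c, hc⟩ : ∃ c : k, algebraMap k (X.kap z) c = X.rs z u := by
      have h4 : IsIntegral k (X.rs z u) := hal.isIntegral
      exact minpoly.mem_range_of_degree_eq_one k _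
        (IsAlgClosed.degree_eq_one_of_irreducible k (minpoly.irreducible h4))
    have hcy : algebraMap k K c ∈ X.O y := (X.O y).algebraMap_mem c
    have hmem : u - algebraMap k K c ∈ X.O y := (X.O y).sub_mem h1.2.1 hcy
    have h4 : X.rs z (u - algebraMap k K c) = 0 := by
      have h5 : X.rs z (u - algebraMap k K c) + X.rs z (algebraMap k K c) = X.rs z u := by
        rw [← rs_add z (h.var.spec _ _ hzy hmem) ((X.O z).algebraMap_mem c), sub_add_cancel]
      rw [rs_alg, hc] at h5
      exact add_eq_right.1 h5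
    have h5 : X.rs y (u - algebraMap k K c) = 0 := by
      by_contra h6
      exact ((rs_ne z (h.var.spec _ _ hzy hmem)).2 (un_le h.var hzy ((rs_ne y hmem).1 h6))) h4
    have h6 : X.rs y u = algebraMap k (X.kap y) c := by
      have h7 : X.rs y (u - algebraMap k K c) + X.rs y (algebraMap k K c) = X.rs y u := by
        rw [← rs_add y hmem hcy, sub_add_cancel]
      rw [h5, rs_alg, zero_add] at h7
      exact h7.symm
    apply h3
    rw [h6]
    exact isAlgebraic_algebraMap c

theorem pcl_of [CharZero k] [IsAlgClosed k] (h : Hyp X) (hP : Pu X F u) {y : X.P}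
    (hy : Algebra.trdeg k (X.kap y) = 1) (hF : 0 < dz h.var y F) : Pcl F 1 u := by
  obtain ⟨h1, -, h3⟩ := u_tr h hP hy hF
  refine ⟨fun x => ?_, fun x => ?_, fun x => ?_, ?_⟩
  · rw [one_mul, pow_one]
    exact hP.one x
  · rw [pow_one]
    exact hP.sec x
  · rw [one_mul]
    exact hP.bpf x
  · rw [div_one]
    intro hal
    obtain ⟨p, hp0, hp⟩ := hal
    apply h3
    refine ⟨p, hp0, ?_⟩
    rw [← (rs_aeval y h1.2.1 p).2, hp, rs_zero]

end Pool.Agent.H47.KN
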