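import Pool.Agent.H32.KF.Rk2
import Pool.Agent.H20.TP.Cur

/-!
# [H47 KN Nrm] K3 fibrations (MP_e49dc9_ag): a section which vanishes on a curve and not on a surface, of small degree on the fibres

`Pcl F s₀ s₁` (H32/KF/Rk1): `s₀`, `s₁` are sections of `F` without common zeros.  `y` a curve of degree `f = dz y F > 0` over the pencil, `z ⤳ y` a surface,
`t = s₁ / s₀` and `w = h₁ / h₀` algebraically independent at `z`, `h₀`, `h₁` sections of `B`.
`nrm`: for some `j` there is a section `σ` of `j F + f B` which vanishes at `y` and is a unit at `z`.  (It is `s₀ ^ j h₀ ^ f P(t, w)`, `P` a polynomial of degree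
`≤ f` in `w`, `≤ j` in `t`, `P(t, w) = 0` on the curve; `w` has degree `≤ f` over `k(t)` there.)

PROOF.  `N := F ^ j * B ^ f`.  For `a ≤ j`, `b ≤ f`: `e a b := s₁ ^ a * s₀ ^ (j - a) * h₁ ^ b * h₀ ^ (f - b)` is a section of `N` (`sec_mul1`, `sec_pw`).
Linear map `Φ : (Fin (j + 1) × Fin (f + 1) → k) → secL (resD h.var y N) 1`, `c ↦ resS h.var y N 1 (∑ c a b • e a b)`.  The source has dimension `(j + 1) (f + 1)`,
the target `hz y N = dz y N + χ = j f + f dz y B + χ` for `j` large (`hz_cur`, `dz_mul`, `dz_pow`; `dz y F = f ≥ 1` as an integer: `dz y N` is large;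
finite-dimensional: `Pool.Agent.H20.TP.fd_sub`).  For `j > f dz y B + χ - f - 1` the source is larger: `Φ c = 0` for some `c ≠ 0`
(`LinearMap.exists_ne_zero_of_finrank_lt`?, or `LinearMap.ker` and `LinearMap.finrank_range_add_finrank_ker`).  `σ := ∑ c a b • e a b`.  `Φ c = 0` says
`X.rs y (σ * N.eq y) = 0` (definition of `resS`, `pow_one`).
At `z`: `σ * N.eq z = (s₀ F_z) ^ j (h₀ B_z) ^ f ∑ c a b t ^ a w ^ b`, the first two factors are units of the local ring (`un_pow`, `un_mul`), `t`, `w` are in the local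
ring (`t_mem` of H32/KF/Rk2 and the same for `w`), and `X.rs z` of the sum is `∑_b (∑_a c a b x ^ a) ω ^ b`, `x = rs t`, `ω = rs w`: the inner sums are in
`k(x)` and not all `0` (`x` transcendental over `k`), so the sum is not `0` (`ω` transcendental over `k(x)`).  An element of the local ring with `rs ≠ 0` is a unit
(`rs_ne`, H83/TK).
-/

set_option autoImplicit false

namespace Pool.Agent.H47.KN

open Pool.Agent.H54.RV Pool.Agent.H83.TU Pool.Agent.H83.TK Pool.Agent.H20.TD Pool.Agent.H20.TP Pool.Agent.H32.KF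

variable {k K : Type} [Field k] [Field K] [Algebra k K] {X : Mod k K}

/-- the sections of the product -/
private theorem e_sec {F B : Cart X} {s₀ s₁ h₀ h₁ : K} (hp : Pcl F s₀ s₁) (hB0 : h₀ ∈ secL B 1)
    (hB1 : h₁ ∈ secL B 1) {j f a b : ℕ} (ha : a ≤ j) (hb : b ≤ f) :
    s₁ ^ a * s₀ ^ (j - a) * (h₁ ^ b * h₀ ^ (f - b)) ∈ secL (F ^ j * B ^ f) 1 := by
  have h1 := Pool.Agent.H36.ZO.sec_mul1 (sec_pw hp.m1 a) (sec_pw hp.m0 (j - a))
  have h2 := Pool.Agent.H36.ZO.sec_mul1 (sec_pw hB1 b) (sec_pw hB0 (f - b))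
  rw [← pow_add, Nat.add_sub_cancel' ha] at h1
  rw [← pow_add, Nat.add_sub_cancel' hb] at h2
  exact Pool.Agent.H36.ZO.sec_mul1 h1 h2

/-- a polynomial in two independent elements is not zero -/
private theorem two_tr {κ : Type} [Field κ] [Algebra k κ] {x ω : κ} (hx : Transcendental k x)
    (hω : Transcendental (IntermediateField.adjoin k {x}) ω) {f : ℕ} {p : Fin (f + 1) → Polynomial k}
    (h : ∑ b, Polynomial.aeval x (p b) * ω ^ (b : ℕ) = 0) : ∀ b, p b = 0 := by
  classical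
  have hxm : x ∈ IntermediateField.adjoin k {x} := IntermediateField.subset_adjoin k _ rfl
  have hc : ∀ q : Polynomial k, Polynomial.aeval x q =
      ((Polynomial.aeval (⟨x, hxm⟩ : IntermediateField.adjoin k {x}) q : IntermediateField.adjoin k {x}) : κ) := by
    intro q
    rw [← IntermediateField.coe_val, ← Polynomial.aeval_algHom_apply]
    rfl
  have h1 : Polynomial.aeval ω (∑ b : Fin (f + 1), Polynomial.monomial (b : ℕ)
      (Polynomial.aeval (⟨x, hxm⟩ : IntermediateField.adjoin k {x}) (p b))) = 0 := by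
    rw [map_sum, ← h]
    refine Finset.sum_congr rfl fun b _ => ?_
    rw [Polynomial.aeval_monomial, hc]
    rfl
  have h2 := (transcendental_iff.1 hω) _ h1
  intro b
  have h3 := congrArg (fun r => Polynomial.coeff r (b : ℕ)) h2
  rw [Polynomial.finsetSum_coeff, Finset.sum_eq_single b, Polynomial.coeff_monomial, if_pos rfl,
    Polynomial.coeff_zero] at h3
  · refine (transcendental_iff.1 hx) (p b) ?_
    rw [hc, h3]
    rfl
  · intro c _ hcb
    rw [Polynomial.coeff_monomial, if_neg fun h4 => hcb (Fin.ext h4)]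
  · intro h4
    exact absurd (Finset.mem_univ b) h4

theorem nrm [CharZero k] (h : Hyp X) {F B : Cart X} {s₀ s₁ h₀ h₁ : K} (hp : Pcl F s₀ s₁) (hB0 : h₀ ∈ secL B 1)
    (hB1 : h₁ ∈ secL B 1) {y z : X.P} (hy : Algebra.trdeg k (X.kap y) = 1) (hF : 0 < dz h.var y F) (hzy : z ⤳ y)
    (hs : Un (X.O z) (s₀ * F.eq z)) (ht : Transcendental k (X.rs z (s₁ / s₀))) (hh : Un (X.O z) (h₀ * B.eq z))
    (hw : Transcendental (IntermediateField.adjoin k {X.rs z (s₁ / s₀)}) (X.rs z (h₁ / h₀))) :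
    ∃ (j : ℕ) (σ : K), Sec (F ^ j * B ^ (dz h.var y F).toNat) 1 σ ∧
      Un (X.O z) (σ * (F ^ j * B ^ (dz h.var y F).toNat).eq z) ∧
      X.rs y (σ * (F ^ j * B ^ (dz h.var y F).toNat).eq y) = 0 := by
  classical
  obtain ⟨A, hA⟩ := h.amp
  obtain ⟨f, hf⟩ : ∃ f : ℕ, f = (dz h.var y F).toNat := ⟨_, rfl⟩
  have hfz : (f : ℤ) = dz h.var y F := by
    rw [hf]
    exact Int.toNat_of_nonneg hF.le
  rw [← hf]
  obtain ⟨χ, hχ⟩ := hz_cur h.var h.amp hy
  obtain ⟨j, hj⟩ : ∃ j : ℕ, j = ((f : ℤ) * dz h.var y B).natAbs + 3 * χ.natAbs + 1 := ⟨_, rfl⟩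
  have hdN : dz h.var y (F ^ j * B ^ f) = j * f + f * dz h.var y B := by
    rw [dz_mul h.var h.amp hy, dz_pow h.var h.amp hy, dz_pow h.var h.amp hy, hfz]
  have hf1 : 1 ≤ f := by
    have h1 : (1 : ℤ) ≤ f := by
      rw [hfz]
      exact hF
    exact_mod_cast h1
  have hjf : (j : ℤ) ≤ j * f := by exact_mod_cast Nat.le_mul_of_pos_right j hf1
  have hab1 : -(((f : ℤ) * dz h.var y B).natAbs : ℤ) ≤ f * dz h.var y B := by
    rw [Int.natCast_natAbs]
    exact neg_abs_le _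
  have hab2 : (f : ℤ) * dz h.var y B ≤ (((f : ℤ) * dz h.var y B).natAbs : ℤ) := by
    rw [Int.natCast_natAbs]
    exact le_abs_self _
  have hχN := hχ (F ^ j * B ^ f) (by
    rw [hdN]
    omega)
  rw [hdN] at hχN
  have hlt : hz h.var y (F ^ j * B ^ f) < (j + 1) * (f + 1) := by
    have h1 : ((hz h.var y (F ^ j * B ^ f) : ℕ) : ℤ) < (((j + 1) * (f + 1) : ℕ) : ℤ) := by
      rw [hχN]
      push_cast
      have h2 : ((j : ℤ) + 1) * (f + 1) = j * f + j + f + 1 := by ring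
      rw [h2]
      omega
    exact_mod_cast h1
  -- the linear map
  obtain ⟨e, he⟩ : ∃ e : Fin (j + 1) × Fin (f + 1) → secL (F ^ j * B ^ f) 1, ∀ i,
      ((e i : secL (F ^ j * B ^ f) 1) : K) =
        s₁ ^ (i.1 : ℕ) * s₀ ^ (j - i.1) * (h₁ ^ (i.2 : ℕ) * h₀ ^ (f - i.2)) :=
    ⟨fun i => ⟨_, e_sec hp hB0 hB1 (Nat.le_of_lt_succ i.1.2) (Nat.le_of_lt_succ i.2.2)⟩, fun _ => rfl⟩
  have hfd := fd_sub h.var hA y (resD h.var y (F ^ j * B ^ f))
  have hker : LinearMap.ker ((resS h.var y (F ^ j * B ^ f) 1).comp (Fintype.linearCombination k e)) ≠ ⊥ := by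
    apply LinearMap.ker_ne_bot_of_finrank_lt
    have h1 : Module.finrank k (secL (resD h.var y (F ^ j * B ^ f)) 1) = hz h.var y (F ^ j * B ^ f) := rfl
    rw [h1, Module.finrank_fintype_fun_eq_card, Fintype.card_prod, Fintype.card_fin, Fintype.card_fin]
    exact hlt
  obtain ⟨c, hc, hc0⟩ := Submodule.exists_mem_ne_zero_of_ne_bot hker
  rw [LinearMap.mem_ker, LinearMap.comp_apply] at hc
  obtain ⟨σ, hσ⟩ : ∃ σ : secL (F ^ j * B ^ f) 1, σ = Fintype.linearCombination k e c := ⟨_, rfl⟩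
  rw [← hσ] at hc
  have hσK : (σ : K) = ∑ i : Fin (j + 1) × Fin (f + 1),
      algebraMap k K (c i) * (s₁ ^ (i.1 : ℕ) * s₀ ^ (j - i.1) * (h₁ ^ (i.2 : ℕ) * h₀ ^ (f - i.2))) := by
    rw [hσ, Fintype.linearCombination_apply, AddSubmonoidClass.coe_finsetSum]
    refine Finset.sum_congr rfl fun i _ => ?_
    rw [← he i, ← Algebra.smul_def]
    rfl
  refine ⟨j, σ, σ.2, ?_, ?_⟩
  · have hs0 := hp.ne0
    have hh0 : h₀ ≠ 0 := left_ne_zero_of_mul hh.1
    have htz := t_mem hp hs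
    have hwz : h₁ / h₀ ∈ X.O z := by
      have h2 : h₁ * B.eq z ∈ X.O z := by
        have := hB1 z
        rwa [pow_one] at this
      have h4 := (X.O z).mul_mem h2 hh.2.2
      have hBne := B.ne z
      have h5 : h₁ * B.eq z * (h₀ * B.eq z)⁻¹ = h₁ / h₀ := by field_simp
      rwa [h5] at h4
    obtain ⟨P, hP⟩ : ∃ P : Fin (f + 1) → Polynomial k,
        ∀ b, P b = ∑ a : Fin (j + 1), Polynomial.monomial (a : ℕ) (c (a, b)) := ⟨_, fun _ => rfl⟩
    have hfac : (σ : K) * (F ^ j * B ^ f).eq z = ((s₀ * F.eq z) ^ j * (h₀ * B.eq z) ^ f) *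
        ∑ b, Polynomial.aeval (s₁ / s₀) (P b) * (h₁ / h₀) ^ (b : ℕ) := by
      rw [hσK, mul_eq, pow_eq, pow_eq, Fintype.sum_prod_type_right, Finset.sum_mul, Finset.mul_sum]
      refine Finset.sum_congr rfl fun b _ => ?_
      rw [hP, map_sum, Finset.sum_mul, Finset.sum_mul, Finset.mul_sum]
      refine Finset.sum_congr rfl fun a _ => ?_
      have ha := Nat.le_of_lt_succ a.2
      have hb := Nat.le_of_lt_succ b.2
      have e1 : s₀ ^ j = s₀ ^ (a : ℕ) * s₀ ^ (j - a) := by rw [← pow_add, Nat.add_sub_cancel' ha]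
      have e2 : h₀ ^ f = h₀ ^ (b : ℕ) * h₀ ^ (f - b) := by rw [← pow_add, Nat.add_sub_cancel' hb]
      rw [Polynomial.aeval_monomial, mul_pow, mul_pow, e1, e2, div_pow, div_pow]
      dsimp only
      field_simp
    have hmem : ∀ b ∈ (Finset.univ : Finset (Fin (f + 1))),
        Polynomial.aeval (s₁ / s₀) (P b) * (h₁ / h₀) ^ (b : ℕ) ∈ X.O z := fun b _ =>
      (X.O z).mul_mem (rs_aeval z htz (P b)).1 ((X.O z).pow_mem hwz _)
    rw [hfac]
    refine un_mul (un_mul (un_pow hs j) (un_pow hh f)) ((rs_ne z ((X.O z).sum_mem hmem)).1 fun h0 => ?_)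
    rw [rs_sum z _ _ hmem] at h0
    have h1 : ∑ b, Polynomial.aeval (X.rs z (s₁ / s₀)) (P b) * X.rs z (h₁ / h₀) ^ (b : ℕ) = 0 := by
      rw [← h0]
      refine Finset.sum_congr rfl fun b _ => ?_
      rw [rs_mul z (rs_aeval z htz (P b)).1 ((X.O z).pow_mem hwz _), (rs_aeval z htz (P b)).2, rs_pow z hwz]
    have h2 := two_tr ht hw h1
    apply hc0
    funext i
    have h3 := congrArg (fun r => Polynomial.coeff r (i.1 : ℕ)) (h2 i.2)
    rw [hP, Polynomial.finsetSum_coeff, Finset.sum_eq_single i.1, Polynomial.coeff_monomial, if_pos rfl,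
      Polynomial.coeff_zero] at h3
    · exact h3
    · intro a _ ha
      rw [Polynomial.coeff_monomial, if_neg fun h4 => ha (Fin.ext h4)]
    · intro h4
      exact absurd (Finset.mem_univ _) h4
  · have h1 := congrArg Subtype.val hc
    rw [resS_coe, pow_one] at h1
    exact h1

end Pool.Agent.H47.KN
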