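import Pool.Agent.H20.TU.SmP
import Pool.Agent.H20.TP.Cur
import Pool.Agent.H39.TK.Pri

/-!
# [H47 KN Trc] K3 fibrations (MP_e49dc9_ag): a fixed multiple of an ample divisor gives transcendental functions on all surfaces

`trc`: `A` ample.  There is ONE `n ≥ 1` such that for every point `z` with residue field of transcendence degree `2` and every element `x` of the residue
field there are sections `h₀`, `h₁` of `n A`, `h₀` a unit at `z`, such that `h₁ / h₀` at `z` is transcendental over `k(x)`.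

PROOF.  As in `bnd_loc`, `ex_bd` of H89/RS/Bnd (there for the points of one curve).  For `x' ∈ X.P` let `n' ≥ 1`, `s` a section of `n' A` with
`x' ∈ U := nz A n' s` affine (`hA x'`); `X.sec U` is generated by a finite set `S` (`hX.fg`); for `b ∈ S` there is `N` with `s ^ N * b` a section of `n' N A`
(`Pool.Agent.H39.TK.ext_nz`), and then for all larger `N` (multiply by powers of `s`): one `N` for all `b ∈ S`.  `X.P` is compact (`hX.comp`), `U` is open
(`hX.op`): finitely many triples `(n'_i, s_i, N_i)`; `n :=` a common multiple of the `n'_i N_i` with `n ≥ 1` and `n / n'_i ≥ N_i`, e.g. the product of all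
`n'_i (N_i + 1)`.  So on `U_i`: `h₀ := s_i ^ (n / n'_i)` is a section of `n A`, a unit at all points of `U_i`, and `h_b := s_i ^ (n / n'_i) * b` is a section
of `n A` for `b ∈ S_i`, `h_b / h₀ = b`.
`z ∈ U_i` for some `i`.  If `X.rs z b` is algebraic over `k(x)` for all `b ∈ S_i` then all elements of `X.rs z (X.sec U_i)` are (`Algebra.adjoin_induction`), so
all elements of `X.kap z` (`hX.frac`: an element of the local ring at `z` is a quotient of elements of `X.sec U_i`; `X.rs z` is onto, see `rs_pos'`, H83/TK/SubC),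
so `X.kap z` is algebraic over `k(x)` and its transcendence degree over `k` is at most `1`: contradiction.
(`Algebra.trdeg_adjoin_simple`-like facts: `Algebra.IsAlgebraic.trdeg_le`, `Algebra.trdeg_add_eq` or the exchange: see H20/TP or H54/RV for similar arguments,
e.g. `IntermediateField.adjoin` with `IsAlgebraic`, `Algebra.lift_trdeg_add_eq`.)
-/

set_option autoImplicit false

namespace Pool.Agent.H47.KN

open Pool.Agent.H54.RV Pool.Agent.H83.TU Pool.Agent.H83.TK

variable {k K : Type} [Field k] [Field K] [Algebra k K] {X : Mod k K}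

open scoped IntermediateField.algebraAdjoinAdjoin in
/-- if a field is algebraic over `k(x)` then its transcendence degree is at most one -/
private theorem tr_le {F : Type} [Field F] [Algebra k F] (x : F)
    (h : Algebra.IsAlgebraic (IntermediateField.adjoin k {x}) F) : Algebra.trdeg k F ≤ 1 := by
  have h1 : Algebra.IsAlgebraic (Algebra.adjoin k ({x} : Set F)) F :=
    (IsFractionRing.comap_isAlgebraic_iff (A := Algebra.adjoin k ({x} : Set F))
      (K := IntermediateField.adjoin k ({x} : Set F)) (C := F)).2 h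
  have h2 := Algebra.IsAlgebraic.trdeg_le_cardinalMk k ({x} : Set F)
  rwa [Cardinal.mk_singleton] at h2

private theorem smul_sec {A : Cart X} {m n : ℕ} {a b : K} (ha : Sec A m a) (hb : Sec A n b) : Sec A (m + n) (a * b) := by
  intro y
  have e : a * b * A.eq y ^ (m + n) = (a * A.eq y ^ m) * (b * A.eq y ^ n) := by
    rw [pow_add]
    ring
  rw [e]
  exact (X.O y).mul_mem (ha y) (hb y)

/-- the local data -/
private theorem trc_loc (hX : IsVar X) {A : Cart X} (hA : Ample A) (x : X.P) : ∃ (n : ℕ) (s : K) (N : ℕ) (S : Finset K),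
    1 ≤ n ∧ Sec A n s ∧ x ∈ nz A n s ∧ X.aff (nz A n s) ∧ Algebra.adjoin k (S : Set K) = X.sec (nz A n s) ∧
    ∀ b ∈ S, ∀ M, N ≤ M → Sec A (n * M) (s ^ M * b) := by
  classical
  obtain ⟨n, hn, s, hs, hxU, hU⟩ := hA x
  obtain ⟨S, hS⟩ := hX.fg _ hU ⟨x, hxU⟩
  have key : ∀ b : K, ∃ N : ℕ, b ∈ S → Sec A (n * N) (s ^ N * b) := by
    intro b
    by_cases hb : b ∈ S
    · have h1 : b ∈ X.sec (nz A n s) := by
        rw [← hS]
        exact Algebra.subset_adjoin (Finset.mem_coe.2 hb)
      obtain ⟨N, hN⟩ := Pool.Agent.H39.TK.ext_nz hX hs b h1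
      exact ⟨N, fun _ => hN⟩
    · exact ⟨0, fun h => absurd h hb⟩
  choose N hN using key
  refine ⟨n, s, S.sup N, S, hn, hs, hxU, hU, hS, fun b hb M hM => ?_⟩
  have h1 : N b ≤ M := (Finset.le_sup (f := N) hb).trans hM
  have h2 := smul_sec (Pool.Agent.H39.TK.sec_pow hs (M - N b)) (hN b hb)
  have e1 : n * (M - N b) + n * N b = n * M := by
    rw [← mul_add]
    congr 1
    omega
  have e2 : s ^ (M - N b) * (s ^ N b * b) = s ^ M * b := by
    rw [← mul_assoc, ← pow_add]
    congr 2
    omega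
  rwa [e1, e2] at h2

/-- the residue field is generated by the classes of the functions on an affine neighbourhood -/
private theorem trc_alg (hX : IsVar X) {U : Set X.P} (hU : X.aff U) {S : Finset K}
    (hS : Algebra.adjoin k (S : Set K) = X.sec U) {z : X.P} (hz : z ∈ U) (F : IntermediateField k (X.kap z))
    (h : ∀ b ∈ S, IsAlgebraic F (X.rs z b)) : Algebra.IsAlgebraic F (X.kap z) := by
  have hmem : ∀ f ∈ X.sec U, f ∈ X.O z := fun f hf => (mem_sec _ _).1 hf z hz
  have h1 : ∀ f ∈ X.sec U, IsAlgebraic F (X.rs z f) := by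
    intro f hf
    rw [← hS] at hf
    induction hf using Algebra.adjoin_induction with
    | mem b hb => exact h b (Finset.mem_coe.1 hb)
    | algebraMap r =>
      rw [rs_alg, IsScalarTower.algebraMap_apply k F (X.kap z)]
      exact isAlgebraic_algebraMap _
    | add f g hf0 hg0 hf hg =>
      rw [hS] at hf0 hg0
      rw [rs_add z (hmem f hf0) (hmem g hg0)]
      exact hf.add hg
    | mul f g hf0 hg0 hf hg =>
      rw [hS] at hf0 hg0
      rw [rs_mul z (hmem f hf0) (hmem g hg0)]
      exact hf.mul hg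
  refine ⟨fun c => ?_⟩
  obtain ⟨a, ha, rfl⟩ := rs_surj z c
  obtain ⟨σ, h2, h3, h4⟩ := hX.frac U z hU hz a ha
  have h5 : X.rs z a * X.rs z σ = X.rs z (a * σ) := (rs_mul z ha (hmem σ h2)).symm
  have h6 : X.rs z σ ≠ 0 := (rs_ne z (hmem σ h2)).2 h3
  have h7 : X.rs z a = X.rs z (a * σ) * (X.rs z σ)⁻¹ := by
    rw [← h5, mul_inv_cancel_right₀ h6]
  rw [h7]
  exact (h1 _ h4).mul (h1 _ h2).inv

theorem trc (hX : IsVar X) {A : Cart X} (hA : Ample A) : ∃ n : ℕ, 1 ≤ n ∧
    ∀ z : X.P, Algebra.trdeg k (X.kap z) = 2 → ∀ x : X.kap z, ∃ h₀ h₁ : K, h₀ ∈ secL (A ^ n) 1 ∧ h₁ ∈ secL (A ^ n) 1 ∧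
      Un (X.O z) (h₀ * (A ^ n).eq z) ∧ Transcendental (IntermediateField.adjoin k {x}) (X.rs z (h₁ / h₀)) := by
  classical
  choose n s N S hn hs hxU hU hS hN using trc_loc hX hA
  haveI := hX.comp
  obtain ⟨T, hT⟩ := isCompact_univ.elim_nhds_subcover (fun x : X.P => nz A (n x) (s x))
    fun x _ => (hX.op _ (hU x)).mem_nhds (hxU x)
  refine ⟨∏ x ∈ T, n x * (N x + 1), Finset.one_le_prod' fun x _ => ?_, ?_⟩
  · exact Nat.mul_pos (hn x) (Nat.succ_pos _)
  intro z hz x
  have h1 := hT.2 (Set.mem_univ z)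
  rw [Set.mem_iUnion₂] at h1
  obtain ⟨y, hy, hzy⟩ := h1
  obtain ⟨R, hR⟩ : ∃ R : ℕ, R = ∏ x ∈ T.erase y, n x * (N x + 1) := ⟨_, rfl⟩
  have hR1 : 1 ≤ R := by
    rw [hR]
    exact Finset.one_le_prod' fun x _ => Nat.mul_pos (hn x) (Nat.succ_pos _)
  obtain ⟨M, hM⟩ : ∃ M : ℕ, M = (N y + 1) * R := ⟨_, rfl⟩
  have hNM : N y ≤ M := by
    rw [hM]
    nlinarith
  have hprod : ∏ x ∈ T, n x * (N x + 1) = n y * M := by
    rw [← Finset.mul_prod_erase T _ hy, ← hR, hM]
    ring
  rw [hprod]
  have hsec : ∀ f : K, Sec A (n y * M) f → f ∈ secL (A ^ (n y * M)) 1 := by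
    intro f hf
    rw [mem_secL]
    intro w
    rw [pow_one, pow_eq]
    exact hf w
  have hs0 : s y ≠ 0 := left_ne_zero_of_mul (show Un (X.O z) (s y * A.eq z ^ n y) from hzy).1
  by_contra hno
  have halg : ∀ b ∈ S y, IsAlgebraic (IntermediateField.adjoin k {x}) (X.rs z b) := by
    intro b hb
    by_contra hb'
    refine hno ⟨s y ^ M, s y ^ M * b, hsec _ (Pool.Agent.H39.TK.sec_pow (hs y) M), hsec _ (hN y b hb M hNM), ?_, ?_⟩
    · rw [pow_eq, pow_mul, ← mul_pow]
      exact un_pow hzy M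
    · rw [mul_div_cancel_left₀ _ (pow_ne_zero _ hs0)]
      exact hb'
  have h2 := tr_le x (trc_alg hX (hU y) (hS y) hzy _ halg)
  rw [hz] at h2
  exact absurd h2 (by norm_num)

end Pool.Agent.H47.KN
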