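import Pool.Agent.H47.KN.Dom
import Pool.Agent.H47.KN.Trc
import Pool.Agent.H47.KN.Nrm
import Pool.Agent.H47.KN.Hor
import Pool.Agent.H89.RS.Cnt
import Pool.Agent.H24.VP.Pos

/-!
# [H47 KN Mul] K3 fibrations (MP_e49dc9_ag): the multiplicity of a divisor along a horizontal curve

`mul`: for `A` ample and a pencil `F` without base points there is `n` such that for every curve `y` with `F.y > 0` and every effective `R`:
`ord_y R ≤ n T(F, R, A)`.

PROOF.  For a prime divisor `S` through `y`: `nrm` gives a member `R'` of `j F + f n A`, `f = F.y`, which contains `y` and not `S`; `cnt`: `ord_y(S) f ≤ T(F,S,R') = f n T(F,S,A)`.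
`vn_dom`: the orders of the prime components add up.
-/

set_option autoImplicit false

namespace Pool.Agent.H47.KN

open Pool.Agent.H54.RV Pool.Agent.H83.TU Pool.Agent.H83.TK Pool.Agent.H20.TD Pool.Agent.H20.TP Pool.Agent.H32.KF
open Pool.Agent.H89.RS Pool.Agent.H43.WR
open Pool.Agent.H24.VP (RR Nf)

variable {k K : Type} [Field k] [Field K] [Algebra k K] {X : Mod k K}
  {T : Cart X → Cart X → Cart X → ℝ} {l : Cart X → ℝ} {c : ℝ} {A F : Cart X} {u : K}

theorem vn_le {y : X.P} {d : Fin 2 → Derivation k K K} {m n : ℕ} (hmn : m ≤ n) {f : K} (hf : Vn X y d n f) :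
    Vn X y d m f := ⟨hf.1, fun a b hab => hf.2 a b (lt_of_lt_of_le hab hmn)⟩

theorem vn_zero_iff {y : X.P} {d : Fin 2 → Derivation k K K} {f : K} (hf : f ∈ X.O y) : Vn X y d 0 f :=
  ⟨hf, fun _ _ hab => absurd hab (Nat.not_lt_zero _)⟩

/-- a unit has order `0` -/
theorem vn_un {y : X.P} {d : Fin 2 → Derivation k K K} {f : K} (hf : Un (X.O y) f) {n : ℕ} (hn : Vn X y d n f) : n = 0 := by
  by_contra h0
  have h1 : X.rs y (wd d 0 0 f) = 0 := hn.2 0 0 (by omega)
  exact (rs_ne y hf.2.1).2 hf h1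

theorem amp_powF (hF : ∀ B : Cart X, Ample B → Ample (B * F)) {B : Cart X} (hB : Ample B) (m : ℕ) : Ample (B * F ^ m) := by
  induction m with
  | zero => rwa [pow_zero, mul_one]
  | succ m ih =>
    rw [pow_succ, ← mul_assoc]
    exact hF _ ih

theorem prinT [CharZero k] [T0Space X.P] (h : Hyp X) (hr : RR T l c) (f : K) (hf : f ≠ 0) (A B : Cart X) :
    T A B (prin X f hf) = 0 := by
  rw [hr.tri.s23, hr.tri.s12]
  exact Pool.Agent.H24.VP.numz_T h hr (numz_prin f hf) A B

/-- the intersection inequality for the class of the fibres -/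
theorem cntF [CharZero k] [IsAlgClosed k] (h : Hyp X) (hr : RR T l c) (hA : Ample A)
    (hF : ∀ B : Cart X, Ample B → Ample (B * F)) {y : X.P}
    (hy : Algebra.trdeg k (X.kap y) = 1) {d : Fin 2 → Derivation k K K} {t : Fin 2 → K} (hJ : Jet X y d t)
    {R R' : Cart X} (hR : Effective R) (hR' : Effective R') (hc : Cop R R') {μ μ' : ℕ}
    (hv : Vn X y d μ (R.eq y)) (hv' : Vn X y d μ' (R'.eq y)) :
    (μ : ℝ) * μ' * dz h.var y F ≤ T F R R' := by
  obtain ⟨E, hE⟩ := ex_bd h hJ
  have key : ∀ m : ℕ, (m : ℝ) * (μ * μ' * dz h.var y F - T F R R') ≤ T A R R' - μ * μ' * dz h.var y A := by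
    intro m
    have h1 := cnt h hr hy hJ hE hR hR' hc hv hv' (amp_powF hF hA m)
    rw [dz_mul h.var h.amp hy, dz_pow h.var h.amp hy, hr.tri.add, hr.tri.pow] at h1
    push_cast at h1
    nlinarith
  by_contra hcon
  push Not at hcon
  obtain ⟨m, hm⟩ := exists_nat_gt ((T A R R' - μ * μ' * dz h.var y A) / (μ * μ' * dz h.var y F - T F R R'))
  rw [div_lt_iff₀ (by linarith)] at hm
  linarith [key m]

/-- two divisors without common component, the first one prime -/
theorem cop_prm [CharZero k] [T0Space X.P] (h : Hyp X) {P : PDiv X} {S R : Cart X} (hS : SPr X P.η S)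
    (hR : Un (X.O P.η) (R.eq P.η)) : Cop S R := by
  intro P'
  by_cases h1 : P.η ⤳ P'.η
  · right
    rw [← Pool.Agent.H89.RT.eq_of_sp h.var h1 (by rw [trdeg_pdiv h, trdeg_pdiv h])]
    exact hR
  · exact Or.inl (hS.un _ h1)

theorem mul_prm [CharZero k] [IsAlgClosed k] [T0Space X.P] (h : Hyp X) (hr : RR T l c)
    (hA : Ample A) (hF : ∀ B : Cart X, Ample B → Ample (B * F)) (hP : Pu X F u) (hFF : ∀ W, T F F W = 0) {n : ℕ}
    (hn : ∀ z : X.P, Algebra.trdeg k (X.kap z) = 2 → ∀ x : X.kap z, ∃ h₀ h₁ : K, h₀ ∈ secL (A ^ n) 1 ∧ h₁ ∈ secL (A ^ n) 1 ∧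
      Un (X.O z) (h₀ * (A ^ n).eq z) ∧ Transcendental (IntermediateField.adjoin k {x}) (X.rs z (h₁ / h₀)))
    {P : PDiv X} {S : Cart X} (hS : SPr X P.η S) {y : X.P} (hy : Algebra.trdeg k (X.kap y) = 1)
    (hf : 0 < dz h.var y F) {d : Fin 2 → Derivation k K K} {t : Fin 2 → K} (hJ : Jet X y d t) {μ : ℕ}
    (hv : Vn X y d μ (S.eq y)) : (μ : ℝ) ≤ n * T F S A := by
  by_cases hzy : P.η ⤳ y
  · obtain ⟨h1, h2, h3⟩ := hor h hP hy hf hzy
    obtain ⟨h₀, h₁, b0, b1, b2, b3⟩ := hn P.η (trdeg_pdiv h P) (X.rs P.η u)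
    have hp := pcl_of h hP hy hf
    obtain ⟨j, σ, c1, c2, c3⟩ := nrm h hp b0 b1 hy hf hzy (by rwa [one_mul]) (by rwa [div_one]) b2 (by rwa [div_one])
    obtain ⟨N, hN⟩ : ∃ N, N = F ^ j * (A ^ n) ^ (dz h.var y F).toNat := ⟨_, rfl⟩
    rw [← hN] at c1 c2 c3
    have hσ : σ ≠ 0 := left_ne_zero_of_mul c2.1
    obtain ⟨R', hR'⟩ : ∃ R', R' = prin X σ hσ * N := ⟨_, rfl⟩
    have e : ∀ x, R'.eq x = σ * N.eq x := fun x => by
      rw [hR', mul_eq]
      rfl
    have hE : Effective R' := by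
      intro x
      rw [e]
      have := c1 x
      rwa [pow_one] at this
    have hcop : Cop S R' := cop_prm h hS (by rwa [e])
    have hv' : Vn X y d 1 (R'.eq y) := by
      refine ⟨hE y, fun a b hab => ?_⟩
      have ha : a = 0 := by omega
      have hb : b = 0 := by omega
      subst ha hb
      change X.rs y (R'.eq y) = 0
      rw [e]
      exact c3
    have h4 := cntF h hr hA hF hy hJ hS.eff hE hcop hv hv'
    have h5 : T F S R' = (dz h.var y F : ℝ) * (n * T F S A) := by
      rw [hR', hr.tri.add3, prinT h hr, zero_add, hN, hr.tri.add3, hr.tri.pow3, hr.tri.pow3, hr.tri.pow3]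
      have h6 : T F S F = 0 := by rw [hr.tri.s23, hFF]
      have h7 : (((dz h.var y F).toNat : ℕ) : ℝ) = (dz h.var y F : ℝ) := by
        have h8 : (((dz h.var y F).toNat : ℕ) : ℤ) = dz h.var y F := Int.toNat_of_nonneg hf.le
        exact_mod_cast h8
      rw [h6, mul_zero, zero_add, h7]
    rw [h5] at h4
    have h6 : (0 : ℝ) < dz h.var y F := by exact_mod_cast hf
    push_cast at h4
    have h7 : (dz h.var y F : ℝ) * μ ≤ (dz h.var y F : ℝ) * (n * T F S A) := by linarith
    exact le_of_mul_le_mul_left h7 h6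
  · rw [vn_un (hS.un y hzy) hv, Nat.cast_zero]
    have h1 : 0 ≤ T F A S := Pool.Agent.H24.VP.nn_eff h hr (N := F) hF hA hS.eff
    rw [hr.tri.s23] at h1
    positivity

/-- the orders of the factors -/
theorem vn_list [CharZero k] {y : X.P} {d : Fin 2 → Derivation k K K} {t : Fin 2 → K} (hJ : Jet X y d t)
    {ι : Type} (g : ι → K) (φ : ι → ℝ) (L : List ι) (hg : ∀ i ∈ L, g i ∈ X.O y)
    (hφ : ∀ i ∈ L, ∀ m : ℕ, Vn X y d m (g i) → (m : ℝ) ≤ φ i) {v : K} (hv : Un (X.O y) v) {μ : ℕ}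
    (hμ : Vn X y d μ ((L.map g).prod * v)) : (μ : ℝ) ≤ (L.map φ).sum := by
  induction L generalizing μ with
  | nil =>
    rw [List.map_nil, List.prod_nil, one_mul] at hμ
    rw [vn_un hv hμ]
    simp
  | cons i L ih =>
    rw [List.map_cons, List.prod_cons, mul_assoc] at hμ
    rw [List.map_cons, List.sum_cons]
    have hmem : (L.map g).prod * v ∈ X.O y := by
      refine (X.O y).mul_mem (Subalgebra.list_prod_mem _ fun x hx => ?_) hv.2.1
      obtain ⟨j, hj, rfl⟩ := List.mem_map.1 hx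
      exact hg j (List.mem_cons_of_mem _ hj)
    have hgi := hg i List.mem_cons_self
    have hφi := hφ i List.mem_cons_self
    have hφi0 : 0 ≤ φ i := by
      have := hφi 0 (vn_zero_iff hgi)
      rwa [Nat.cast_zero] at this
    -- the order of `g i`
    have hex : ∃ m : ℕ, ¬ Vn X y d (m + 1) (g i) := by
      obtain ⟨m, hm⟩ := exists_nat_gt (φ i)
      refine ⟨m, fun h1 => ?_⟩
      have := hφi _ h1
      push_cast at this
      linarith
    classical
    obtain ⟨m, hm1, hm2⟩ : ∃ m : ℕ, Vn X y d m (g i) ∧ ¬ Vn X y d (m + 1) (g i) := by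
      refine ⟨Nat.find hex, ?_, Nat.find_spec hex⟩
      rcases Nat.eq_zero_or_pos (Nat.find hex) with h0 | h0
      · rw [h0]
        exact vn_zero_iff hgi
      · have h1 := Nat.find_min hex (m := Nat.find hex - 1) (by omega)
        rw [not_not, Nat.sub_add_cancel h0] at h1
        exact h1
    have hm3 := hφi m hm1
    rcases Nat.lt_or_ge μ m with h4 | h4
    · have h5 : (0 : ℝ) ≤ (L.map φ).sum := by
        refine List.sum_nonneg fun x hx => ?_
        obtain ⟨j, hj, rfl⟩ := List.mem_map.1 hx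
        have := hφ j (List.mem_cons_of_mem _ hj) 0 (vn_zero_iff (hg j (List.mem_cons_of_mem _ hj)))
        rwa [Nat.cast_zero] at this
      have h6 : (μ : ℝ) < m := by exact_mod_cast h4
      linarith
    · have h5 : Vn X y d (μ - m) ((L.map g).prod * v) := by
        rcases Nat.eq_zero_or_pos (μ - m) with h6 | h6
        · rw [h6]
          exact vn_zero_iff hmem
        · by_contra h7
          have h8 := vn_dom hJ hgi hmem (m := m) (n := μ - m - 1) hm2 (by rwa [Nat.sub_add_cancel h6])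
          apply h8
          have e : m + (μ - m - 1) + 1 = μ := by omega
          rwa [e]
      have h6 := ih (fun j hj => hg j (List.mem_cons_of_mem _ hj)) (fun j hj => hφ j (List.mem_cons_of_mem _ hj)) h5
      have h7 : (μ : ℝ) = m + (μ - m : ℕ) := by
        have : μ = m + (μ - m) := by omega
        exact_mod_cast this
      rw [h7]
      linarith

theorem mul [CharZero k] [IsAlgClosed k] [T0Space X.P] (h : Hyp X) (hr : RR T l c)
    (hA : Ample A) (hF : ∀ B : Cart X, Ample B → Ample (B * F)) (hP : Pu X F u) (hFF : ∀ W, T F F W = 0) :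
    ∃ n : ℕ, 1 ≤ n ∧ ∀ {y : X.P}, Algebra.trdeg k (X.kap y) = 1 → 0 < dz h.var y F →
      ∀ {d : Fin 2 → Derivation k K K} {t : Fin 2 → K}, Jet X y d t → ∀ {R : Cart X}, Effective R →
        ∀ μ : ℕ, Vn X y d μ (R.eq y) → (μ : ℝ) ≤ n * T F R A := by
  obtain ⟨n, hn1, hn⟩ := trc h.var hA
  refine ⟨n, hn1, fun {y} hy hf {d} {t} hJ {R} hR μ hμ => ?_⟩
  obtain ⟨Ls, U, h1, h2, h3, h4⟩ := Pool.Agent.H24.VP.fac_eff h hr hR
  have hU : Un (X.O y) (U.eq y) := ⟨U.ne y, h2 y, by
    have := h3 y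
    rwa [inv_eq] at this⟩
  have e : ∀ L : List (PDiv X × Cart X), (L.map Prod.snd).prod.eq y = (L.map fun p => p.2.eq y).prod := by
    intro L
    induction L with
    | nil =>
      rw [List.map_nil, List.prod_nil, one_eq, List.map_nil, List.prod_nil]
    | cons p L ih => rw [List.map_cons, List.prod_cons, mul_eq, ih, List.map_cons, List.prod_cons]
  rw [h4, mul_eq, e] at hμ
  have h5 := vn_list hJ (fun p : PDiv X × Cart X => p.2.eq y) (fun p => (n : ℝ) * T F p.2 A) Ls
    (fun p hp => (h1 p hp).eff y) (fun p hp m hm => mul_prm h hr hA hF hP hFF hn (h1 p hp) hy hf hJ hm) hU hμ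
  refine h5.trans (le_of_eq ?_)
  have e2 : ∀ L : List (PDiv X × Cart X), (L.map fun p => (n : ℝ) * T F p.2 A).sum =
      n * T F (L.map Prod.snd).prod A := by
    intro L
    induction L with
    | nil => rw [List.map_nil, List.sum_nil, List.map_nil, List.prod_nil, hr.tri.one2, mul_zero]
    | cons p L ih => rw [List.map_cons, List.sum_cons, ih, List.map_cons, List.prod_cons, hr.tri.add2, mul_add]
  rw [e2, h4, hr.tri.add2]
  have h6 : T F U A = 0 := by
    rw [hr.tri.s12]
    exact Pool.Agent.H24.VP.triv_T h hr h2 h3 F A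
  rw [h6, add_zero]

end Pool.Agent.H47.KN
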