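import Mathlib

/-!
# [H47 KN Mlt] K3 fibrations (MP_e49dc9_ag, think 1279), (5b) - (5e): multiplicities (real numbers and finite sums only)

`R = ∑ n i • G i`, `a i = b(A,G i) ≥ 1`, `g i = b(G i,G i)`, `e i = b(D,G i) ≥ 0`, `w i = b(W,G i) ≥ 0`, `β = b(W,W)`, `μ i` = the order of `G i`
along the curve, `μ (μ - 1) ≤ C (g⁺ + a)`.  `mlt_small`: `∑ n i μ i ≤ η x` for large `x` if `e i ≥ ε` for `a i ≤ M`.
-/

set_option autoImplicit false

namespace Pool.Agent.H47.KN

private theorem mlt_mu {C g a μ : ℝ} (hC : 0 ≤ C) (ha : 0 ≤ a) (hμ : μ * (μ - 1) ≤ C * (max g 0 + a)) :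
    μ ≤ 1 + Real.sqrt C * Real.sqrt (max g 0) + Real.sqrt C * Real.sqrt a := by
  obtain ⟨s, hs⟩ : ∃ s, s = Real.sqrt C * Real.sqrt (max g 0) := ⟨_, rfl⟩
  obtain ⟨t, ht⟩ : ∃ t, t = Real.sqrt C * Real.sqrt a := ⟨_, rfl⟩
  have hs0 : 0 ≤ s := by rw [hs]; positivity
  have ht0 : 0 ≤ t := by rw [ht]; positivity
  have hs2 : s ^ 2 = C * max g 0 := by
    rw [hs, mul_pow, Real.sq_sqrt hC, Real.sq_sqrt (le_max_right _ _)]
  have ht2 : t ^ 2 = C * a := by
    rw [ht, mul_pow, Real.sq_sqrt hC, Real.sq_sqrt ha]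
  rw [← hs, ← ht]
  by_contra hcon
  push Not at hcon
  have h1 : (s + t) * (1 + (s + t)) < μ * (μ - 1) := by nlinarith
  nlinarith

theorem mlt_small {C η : ℝ} (hC : 0 < C) (hη : 0 < η) : ∃ M : ℝ, 0 < M ∧ ∀ ε : ℝ, 0 < ε → ∃ x₀ : ℝ, 1 ≤ x₀ ∧
    ∀ (x β : ℝ) (ι : Type) (s : Finset ι) (n a g e w μ : ι → ℝ), x₀ ≤ x → 0 < β → β ≤ C * x →
      (∀ i ∈ s, 0 ≤ n i) → (∀ i ∈ s, 1 ≤ a i) → (∀ i ∈ s, 0 ≤ e i) → (∀ i ∈ s, 0 ≤ w i) →
      (∀ i ∈ s, g i * β ≤ w i ^ 2) → (∀ i ∈ s, μ i * (μ i - 1) ≤ C * (max (g i) 0 + a i)) →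
      (∑ i ∈ s, n i * a i ≤ C * x) → (∑ i ∈ s, n i * e i ≤ C) → (∑ i ∈ s, n i * w i ≤ β) →
      (∀ i ∈ s, a i ≤ M → ε ≤ e i) → ∑ i ∈ s, n i * μ i ≤ η * x := by
  obtain ⟨q, hq⟩ : ∃ q, q = 1 + Real.sqrt C := ⟨_, rfl⟩
  have hq0 : 0 < q := by rw [hq]; positivity
  obtain ⟨m, hm⟩ : ∃ m, m = 3 * q * C / η := ⟨_, rfl⟩
  have hm0 : 0 < m := by rw [hm]; positivity
  refine ⟨m ^ 2, by positivity, fun ε hε => ?_⟩
  refine ⟨max 1 (max (3 * q * (m * C) / ε / η) ((3 * C / η) ^ 2)), le_max_left _ _, ?_⟩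
  intro x β ι s n a g e w μ hx hβ0 hβ hn ha he hw hg hμ h1 h2 h3 h4
  have hx1 : 1 ≤ x := (le_max_left _ _).trans hx
  have hx2 : 3 * q * (m * C) / ε / η ≤ x := (le_max_left _ _).trans ((le_max_right _ _).trans hx)
  have hx3 : (3 * C / η) ^ 2 ≤ x := (le_max_right _ _).trans ((le_max_right _ _).trans hx)
  have hx0 : 0 < x := by linarith
  -- the terms
  have key : ∀ i ∈ s, n i * μ i ≤ q * (m / ε * (n i * e i) + (n i * a i) / m) +
      Real.sqrt C / Real.sqrt β * (n i * w i) := by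
    intro i hi
    have k1 := mlt_mu hC.le (by linarith [ha i hi]) (hμ i hi)
    have k2 : Real.sqrt (max (g i) 0) ≤ w i / Real.sqrt β := by
      rw [le_div_iff₀ (Real.sqrt_pos.2 hβ0), ← Real.sqrt_mul (le_max_right _ _)]
      refine Real.sqrt_le_iff.2 ⟨hw i hi, ?_⟩
      rcases le_total (g i) 0 with h | h
      · rw [max_eq_right h, zero_mul]
        positivity
      · rw [max_eq_left h]
        exact hg i hi
    have k3 : 1 ≤ Real.sqrt (a i) := Real.one_le_sqrt.2 (ha i hi)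
    have k4 : μ i ≤ q * Real.sqrt (a i) + Real.sqrt C * (w i / Real.sqrt β) := by
      have k5 : Real.sqrt C * Real.sqrt (max (g i) 0) ≤ Real.sqrt C * (w i / Real.sqrt β) :=
        mul_le_mul_of_nonneg_left k2 (Real.sqrt_nonneg _)
      rw [hq]
      nlinarith
    have k6 : n i * Real.sqrt (a i) ≤ m / ε * (n i * e i) + (n i * a i) / m := by
      have hn0 := hn i hi
      have ha0 : 0 ≤ a i := by linarith [ha i hi]
      rcases le_or_gt (a i) (m ^ 2) with h | h
      · have k7 : Real.sqrt (a i) ≤ m := Real.sqrt_le_iff.2 ⟨hm0.le, h⟩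
        have k8 : 1 ≤ e i / ε := (one_le_div hε).2 (h4 i hi h)
        have k9 : n i * Real.sqrt (a i) ≤ n i * (m * (e i / ε)) := by
          refine mul_le_mul_of_nonneg_left ?_ hn0
          nlinarith
        have k10 : n i * (m * (e i / ε)) = m / ε * (n i * e i) := by ring
        have k11 : 0 ≤ (n i * a i) / m := by positivity
        linarith
      · have k7 : m ≤ Real.sqrt (a i) := Real.le_sqrt_of_sq_le h.le
        have k8 : Real.sqrt (a i) ≤ a i / m := by
          rw [le_div_iff₀ hm0]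
          calc Real.sqrt (a i) * m ≤ Real.sqrt (a i) * Real.sqrt (a i) :=
                mul_le_mul_of_nonneg_left k7 (Real.sqrt_nonneg _)
            _ = a i := Real.mul_self_sqrt ha0
        have k9 := mul_le_mul_of_nonneg_left k8 hn0
        have k10 : n i * (a i / m) = (n i * a i) / m := by ring
        have k11 : 0 ≤ m / ε * (n i * e i) := by
          have := he i hi
          positivity
        linarith
    have k7 := mul_le_mul_of_nonneg_left k4 (hn i hi)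
    have k8 := mul_le_mul_of_nonneg_left k6 hq0.le
    have k9 : n i * (q * Real.sqrt (a i) + Real.sqrt C * (w i / Real.sqrt β)) =
        q * (n i * Real.sqrt (a i)) + Real.sqrt C / Real.sqrt β * (n i * w i) := by ring
    linarith
  have h5 : ∑ i ∈ s, n i * μ i ≤ q * (m / ε * ∑ i ∈ s, n i * e i + (∑ i ∈ s, n i * a i) / m) +
      Real.sqrt C / Real.sqrt β * ∑ i ∈ s, n i * w i := by
    refine (Finset.sum_le_sum key).trans (le_of_eq ?_)
    rw [Finset.sum_add_distrib, ← Finset.mul_sum, ← Finset.mul_sum, Finset.sum_add_distrib, ← Finset.mul_sum,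
      Finset.sum_div]
  have h6 : q * (m / ε * ∑ i ∈ s, n i * e i) ≤ η * x / 3 := by
    have h7 : q * (m / ε * ∑ i ∈ s, n i * e i) ≤ q * (m / ε * C) := by
      refine mul_le_mul_of_nonneg_left (mul_le_mul_of_nonneg_left h2 (by positivity)) hq0.le
    have h8 : q * (m / ε * C) = (3 * q * (m * C) / ε / η) * η / 3 := by
      field_simp
    have h9 : (3 * q * (m * C) / ε / η) * η ≤ x * η := mul_le_mul_of_nonneg_right hx2 hη.le
    linarith
  have h7 : q * ((∑ i ∈ s, n i * a i) / m) ≤ η * x / 3 := by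
    have h8 : q * ((∑ i ∈ s, n i * a i) / m) ≤ q * ((C * x) / m) :=
      mul_le_mul_of_nonneg_left (div_le_div_of_nonneg_right h1 hm0.le) hq0.le
    have h9 : q * ((C * x) / m) = η * x / 3 := by
      rw [hm]
      field_simp
    linarith
  have h8 : Real.sqrt C / Real.sqrt β * ∑ i ∈ s, n i * w i ≤ η * x / 3 := by
    have hsβ : 0 < Real.sqrt β := Real.sqrt_pos.2 hβ0
    have h9 : Real.sqrt C / Real.sqrt β * ∑ i ∈ s, n i * w i ≤ Real.sqrt C / Real.sqrt β * β :=
      mul_le_mul_of_nonneg_left h3 (by positivity)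
    have h10 : Real.sqrt C / Real.sqrt β * β = Real.sqrt C * Real.sqrt β := by
      rw [div_mul_eq_mul_div, div_eq_iff hsβ.ne', mul_assoc, Real.mul_self_sqrt hβ0.le]
    have h11 : Real.sqrt β ≤ Real.sqrt C * Real.sqrt x := by
      rw [← Real.sqrt_mul hC.le]
      exact Real.sqrt_le_sqrt hβ
    have h12 : Real.sqrt C * Real.sqrt β ≤ C * Real.sqrt x := by
      have h13 := mul_le_mul_of_nonneg_left h11 (Real.sqrt_nonneg C)
      have h14 : Real.sqrt C * (Real.sqrt C * Real.sqrt x) = C * Real.sqrt x := by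
        rw [← mul_assoc, Real.mul_self_sqrt hC.le]
      linarith
    have h13 : 3 * C / η ≤ Real.sqrt x := Real.le_sqrt_of_sq_le hx3
    have h14 : C * Real.sqrt x ≤ η * x / 3 := by
      have h15 : 3 * C ≤ Real.sqrt x * η := (div_le_iff₀ hη).1 h13
      have h16 : Real.sqrt x * Real.sqrt x = x := Real.mul_self_sqrt hx0.le
      have h17 := mul_le_mul_of_nonneg_right h15 (Real.sqrt_nonneg x)
      nlinarith
    linarith
  have h9 : q * (m / ε * ∑ i ∈ s, n i * e i + (∑ i ∈ s, n i * a i) / m) =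
      q * (m / ε * ∑ i ∈ s, n i * e i) + q * ((∑ i ∈ s, n i * a i) / m) := by ring
  linarith

end Pool.Agent.H47.KN
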