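import Pool.Agent.H83.TK.SubE
import Pool.Agent.H83.TK.Dim

/-!
# [H47 KN Gz] K3 fibrations (MP_e49dc9_ag): a surface is not invariant under three independent derivations

`der_prm`: `θ i (x j) = δ_ij` (`i j : Fin 3`); `z` a point with residue field of transcendence degree `2`, `x i` in the local ring at `z`, the `θ i` preserve it; `S` the prime divisor with
generic point `z`.  Then `θ i (S.eq z)` does not vanish at `z` for some `i`.

PROOF.  The residues `X.rs z (x i)` of the three elements are algebraically dependent over `k` (transcendence degree `2`): there is a nonzero `Q : MvPolynomial (Fin 3) k` with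
`X.rs z (aeval x Q) = 0` (`rs` is a ring homomorphism on the local ring: `X.rs z (aeval x Q) = aeval (X.rs z ∘ x) Q`, induction on `Q`).  Choose such a `Q` of minimal total degree.  `f := aeval x Q`,
`f ∈ X.O z`.  `θ i (aeval x Q) = aeval x (pderiv i Q)` (induction on `Q`, Leibniz, `θ i (x j) = δ_ij`).  If `X.rs z (θ i f) = 0` for all `i` then `pderiv i Q = 0` for all `i` by minimality
(`MvPolynomial.totalDegree` of a nonzero derivative is smaller: a polynomial of total degree `0` is a constant and then `X.rs z (aeval x Q) ≠ 0`), so `Q` is a constant (characteristic `0`; if a monomial of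
positive degree in the variable `i` occurs in `Q` then `pderiv i Q ≠ 0`), not zero: a contradiction to `X.rs z f = 0`.  So `X.rs z (θ i f) ≠ 0` for some `i`.
`X.rs z f = 0`, so `f` is not a unit at `z` and `f = a * S.eq z`, `a ∈ X.O z` (`SPr.ker` with `x = z`).  `θ i f = a * θ i (S.eq z) + S.eq z * θ i a`, and `X.rs z (S.eq z) = 0` (`SPr.nun`), so
`X.rs z (θ i (S.eq z)) ≠ 0`.
-/

set_option autoImplicit false

namespace Pool.Agent.H47.KN

open Pool.Agent.H54.RV Pool.Agent.H83.TU Pool.Agent.H83.TK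

variable {k K : Type} [Field k] [Field K] [Algebra k K] {X : Mod k K}

private theorem ae_mem {z : X.P} {x : Fin 3 → K} (hx : ∀ i, x i ∈ X.O z) (Q : MvPolynomial (Fin 3) k) :
    MvPolynomial.aeval x Q ∈ X.O z ∧
      X.rs z (MvPolynomial.aeval x Q) = MvPolynomial.aeval (fun i => X.rs z (x i)) Q := by
  induction Q using MvPolynomial.induction_on with
  | C a =>
    rw [MvPolynomial.aeval_C, MvPolynomial.aeval_C]
    exact ⟨(X.O z).algebraMap_mem a, rs_alg z a⟩
  | add p q hp hq =>
    rw [map_add, map_add]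
    exact ⟨(X.O z).add_mem hp.1 hq.1, by rw [rs_add z hp.1 hq.1, hp.2, hq.2]⟩
  | mul_X p i hp =>
    rw [map_mul, map_mul, MvPolynomial.aeval_X, MvPolynomial.aeval_X]
    exact ⟨(X.O z).mul_mem hp.1 (hx i), by rw [rs_mul z hp.1 (hx i), hp.2]⟩

private theorem der_ae {θ : Fin 3 → Derivation k K K} {x : Fin 3 → K}
    (hθ : ∀ i j, θ i (x j) = if i = j then 1 else 0) (i : Fin 3) (Q : MvPolynomial (Fin 3) k) :
    θ i (MvPolynomial.aeval x Q) = MvPolynomial.aeval x (MvPolynomial.pderiv i Q) := by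
  induction Q using MvPolynomial.induction_on with
  | C a =>
    rw [MvPolynomial.aeval_C, MvPolynomial.pderiv_C, map_zero, Derivation.map_algebraMap]
  | add p q hp hq =>
    rw [map_add, map_add, map_add, map_add, hp, hq]
  | mul_X p j hp =>
    rw [map_mul, MvPolynomial.pderiv_mul, Derivation.leibniz, map_add, map_mul, map_mul, hp,
      MvPolynomial.aeval_X, MvPolynomial.pderiv_X, hθ]
    by_cases h : i = j
    · subst h
      rw [if_pos rfl, Pi.single_eq_same, map_one, smul_eq_mul, smul_eq_mul]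
      ring
    · rw [if_neg h, Pi.single_eq_of_ne (fun h1 => h h1.symm), map_zero, smul_eq_mul, smul_eq_mul]
      ring

private theorem pd_lt {i : Fin 3} {Q : MvPolynomial (Fin 3) k} (h : MvPolynomial.pderiv i Q ≠ 0) :
    (MvPolynomial.pderiv i Q).totalDegree < Q.totalDegree := by
  have key : ∀ m ∈ (MvPolynomial.pderiv i Q).support, (m.sum fun _ e => e) < Q.totalDegree := by
    intro m hm
    have h1 : m + Finsupp.single i 1 ∈ Q.support := by
      rw [MvPolynomial.mem_support_iff] at hm ⊢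
      intro h0
      apply hm
      rw [MvPolynomial.coeff_pderiv, h0, zero_mul]
    have h2 := MvPolynomial.le_totalDegree h1
    rw [Finsupp.sum_add_index' (fun _ => rfl) (fun _ _ _ => rfl), Finsupp.sum_single_index rfl] at h2
    omega
  have hne : (MvPolynomial.pderiv i Q).support.Nonempty :=
    Finset.nonempty_of_ne_empty fun h0 => h (MvPolynomial.support_eq_empty.1 h0)
  obtain ⟨m, hm⟩ := hne
  unfold MvPolynomial.totalDegree
  rw [Finset.sup_lt_iff]
  · exact key
  · exact lt_of_le_of_lt (Nat.zero_le _) (key m hm)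

private theorem pd_ex [CharZero k] {Q : MvPolynomial (Fin 3) k} (h : ∀ i, MvPolynomial.pderiv i Q = 0) :
    ∃ c, Q = MvPolynomial.C c := by
  classical
  refine ⟨Q.coeff 0, ?_⟩
  ext m
  rw [MvPolynomial.coeff_C]
  by_cases hm : m = 0
  · subst hm
    rw [if_pos rfl]
  · rw [if_neg (fun h1 => hm h1.symm)]
    obtain ⟨i, hi⟩ : ∃ i, m i ≠ 0 := by
      by_contra hcon
      push Not at hcon
      exact hm (Finsupp.ext hcon)
    have h1 := MvPolynomial.coeff_pderiv (i := i) Q (m - Finsupp.single i 1)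
    have h2 : m - Finsupp.single i 1 + Finsupp.single i 1 = m := by
      rw [tsub_add_cancel_iff_le, Finsupp.single_le_iff]
      omega
    rw [h, MvPolynomial.coeff_zero, h2] at h1
    rcases mul_eq_zero.1 h1.symm with h3 | h3
    · exact h3
    · exfalso
      have h4 : (((m - Finsupp.single i 1 : Fin 3 →₀ ℕ) i + 1 : ℕ) : k) = 0 := by
        rw [Nat.cast_add, Nat.cast_one]
        exact h3
      exact Nat.succ_ne_zero _ (Nat.cast_eq_zero.1 h4)

private theorem ex_f [CharZero k] {θ : Fin 3 → Derivation k K K} {x : Fin 3 → K}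
    (hθ : ∀ i j, θ i (x j) = if i = j then 1 else 0) {z : X.P} (hx : ∀ i, x i ∈ X.O z) (n : ℕ) :
    ∀ Q : MvPolynomial (Fin 3) k, Q.totalDegree = n → Q ≠ 0 →
      MvPolynomial.aeval (fun i => X.rs z (x i)) Q = 0 →
      ∃ f ∈ X.O z, X.rs z f = 0 ∧ ∃ i, X.rs z (θ i f) ≠ 0 := by
  induction n using Nat.strong_induction_on with
  | _ n ih =>
    intro Q hn hQ h0
    by_cases hi : ∃ i, X.rs z (θ i (MvPolynomial.aeval x Q)) ≠ 0
    · exact ⟨_, (ae_mem hx Q).1, by rw [(ae_mem hx Q).2, h0], hi⟩
    · push Not at hi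
      have h1 : ∀ i, MvPolynomial.aeval (fun i => X.rs z (x i)) (MvPolynomial.pderiv i Q) = 0 := by
        intro i
        rw [← (ae_mem hx _).2, ← der_ae hθ i Q, hi i]
      by_cases hp : ∀ i, MvPolynomial.pderiv i Q = 0
      · exfalso
        obtain ⟨c, hc⟩ := pd_ex hp
        rw [hc, MvPolynomial.aeval_C] at h0
        apply hQ
        rw [hc, (map_eq_zero_iff _ (algebraMap k (X.kap z)).injective).1 h0, MvPolynomial.C_0]
      · push Not at hp
        obtain ⟨i, hi⟩ := hp
        exact ih _ (by rw [← hn]; exact pd_lt hi) _ rfl hi (h1 i)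

theorem der_prm [CharZero k] {θ : Fin 3 → Derivation k K K} {x : Fin 3 → K}
    (hθ : ∀ i j, θ i (x j) = if i = j then 1 else 0) {z : X.P} (hz : Algebra.trdeg k (X.kap z) = 2) {S : Cart X}
    (hS : SPr X z S) (hx : ∀ i, x i ∈ X.O z) (hst : ∀ i, ∀ f ∈ X.O z, θ i f ∈ X.O z) :
    ∃ i, X.rs z (θ i (S.eq z)) ≠ 0 := by
  have h1 : ¬ AlgebraicIndependent k (fun i => X.rs z (x i)) := by
    intro h
    have h2 := h.cardinalMk_le_trdeg
    rw [hz, Cardinal.mk_fin] at h2
    have h3 : ((3 : ℕ) : Cardinal.{0}) ≤ ((2 : ℕ) : Cardinal.{0}) := by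
      exact_mod_cast h2
    have h4 : (3 : ℕ) ≤ 2 := Nat.cast_le.1 h3
    omega
  rw [algebraicIndependent_iff] at h1
  push Not at h1
  obtain ⟨Q, hQ0, hQ⟩ := h1
  obtain ⟨f, hf, hf0, i, hi⟩ := ex_f hθ hx _ Q rfl hQ hQ0
  refine ⟨i, ?_⟩
  have hun : ¬ Un (X.O z) f := fun h => (rs_ne z hf).2 h hf0
  have ha := hS.ker z specializes_rfl f hf hun
  have hS1 : ¬ Un (X.O z) (S.eq z) := hS.nun z specializes_rfl
  have hS2 : S.eq z ∈ X.O z := hS.eff z
  have hS3 : X.rs z (S.eq z) = 0 := by
    by_contra h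
    exact hS1 ((rs_ne z hS2).1 h)
  intro hcon
  apply hi
  have h5 : f = f / S.eq z * S.eq z := by
    have := S.ne z
    field_simp
  rw [h5, Derivation.leibniz, smul_eq_mul, smul_eq_mul,
    rs_add z ((X.O z).mul_mem ha (hst i _ hS2)) ((X.O z).mul_mem hS2 (hst i _ ha)),
    rs_mul z ha (hst i _ hS2), rs_mul z hS2 (hst i _ ha), hcon, hS3, mul_zero, zero_mul, add_zero]

end Pool.Agent.H47.KN
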