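import Mathlib

/-!
# [H47 KN Siz] K3 fibrations (MP_e49dc9_ag, think 1279), (3a) - (3c): sizes (real numbers only)

`W = x D + a`, `W3 = W³`, `β = T(F,W,W)`, `τ` = the nef threshold of `W` in the direction `F`, `h = h0(W + ⌈τ⌉ F)`, `u` = the least integer
such that `W + u F` is effective, `δ = τ - u`, `c = l(F) > 0`.

* `siz_nn`: `D³ ≥ 0` and `δ ≤ K x` imply `τ ≤ K' x`.
* `siz_neg`: `D³ < 0`: `δ > η x` and `τ > η x²` for large `x`.
* `siz_spc`: `D³ = - c' θ' < 0`, `D² S = - θ'`, `b(D,.) = c' b(S,.)`: `δ > K x` for large `x`.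
-/

set_option autoImplicit false

namespace Pool.Agent.H47.KN

/-- the estimates for one value of `x` -/
structure Siz (D3 c₁ C c x W3 β τ h δ : ℝ) : Prop where
  cbw : |W3 - x ^ 3 * D3| ≤ C * x ^ 2
  lo : c₁ * x ≤ β
  hi : β ≤ C * x
  cub : 0 ≤ W3 + 3 * τ * β
  chi : (W3 + 3 * τ * β) / 6 + c * τ - C * x ≤ h
  stp : h ≤ C * x * (δ + 2)

theorem siz_nn {D3 c₁ C c K : ℝ} (hD : 0 ≤ D3) (hc₁ : 0 < c₁) (hC : 0 < C) (hc : 0 < c) (hK : 0 ≤ K) :
    ∃ K', 0 < K' ∧ ∀ x W3 β τ h δ : ℝ, 1 ≤ x → Siz D3 c₁ C c x W3 β τ h δ → δ ≤ K * x → τ ≤ K' * x := by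
  refine ⟨2 * (C * (K + 4)) / c₁ + 1, by positivity, fun x W3 β τ h δ hx hs hδ => ?_⟩
  by_contra hcon
  push Not at hcon
  have hx0 : 0 < x := by linarith
  have hK' : 0 < 2 * (C * (K + 4)) / c₁ + 1 := by positivity
  have hτ : 0 < τ := lt_trans (by positivity) hcon
  have h1 := (abs_le.1 hs.cbw).1
  have h2 : 0 ≤ x ^ 3 * D3 := by positivity
  have h3 : - (C * x ^ 2) ≤ W3 := by linarith
  have h4 : τ * (c₁ * x) ≤ τ * β := mul_le_mul_of_nonneg_left hs.lo hτ.le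
  have h5 : h ≤ C * x * (K * x + 2) := hs.stp.trans (mul_le_mul_of_nonneg_left (by linarith) (by positivity))
  have h6 := hs.chi
  have h7 : 0 ≤ c * τ := by positivity
  have h8 : τ * (c₁ * x) / 2 ≤ C * x * (K * x + 2) + C * x + C * x ^ 2 / 6 := by nlinarith
  have h9 : C * x * (K * x + 2) + C * x + C * x ^ 2 / 6 ≤ C * (K + 4) * x ^ 2 := by
    have h10 : C * x ≤ C * x ^ 2 := mul_le_mul_of_nonneg_left (by nlinarith) hC.le
    nlinarith
  have h10 : (2 * (C * (K + 4)) / c₁ + 1) * x * (c₁ * x) < τ * (c₁ * x) :=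
    mul_lt_mul_of_pos_right hcon (by positivity)
  have h11 : (2 * (C * (K + 4)) / c₁ + 1) * x * (c₁ * x) = 2 * (C * (K + 4)) * x ^ 2 + c₁ * x ^ 2 := by
    field_simp
  have h12 : 0 < c₁ * x ^ 2 := by positivity
  nlinarith

theorem siz_neg {D3 c₁ C c : ℝ} (hD : D3 < 0) (hC : 0 < C) (hc : 0 < c) :
    ∃ η x₀ : ℝ, 0 < η ∧ 1 ≤ x₀ ∧ ∀ x W3 β τ h δ : ℝ, x₀ ≤ x → Siz D3 c₁ C c x W3 β τ h δ →
      0 < β → η * x < δ ∧ η * x ^ 2 < τ := by
  obtain ⟨θ, hθ⟩ : ∃ θ, θ = - D3 := ⟨_, rfl⟩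
  have hθ0 : 0 < θ := by linarith
  obtain ⟨c₀, hc₀⟩ : ∃ c₀, c₀ = θ / (6 * C) := ⟨_, rfl⟩
  have hc₀0 : 0 < c₀ := by rw [hc₀]; positivity
  obtain ⟨η, hη⟩ : ∃ η, η = min (c₀ / 2) (c * c₀ / (2 * C)) := ⟨_, rfl⟩
  have hη0 : 0 < η := by rw [hη]; exact lt_min (by positivity) (by positivity)
  have hη1 : η ≤ c₀ / 2 := by rw [hη]; exact min_le_left _ _
  have hη2 : η ≤ c * c₀ / (2 * C) := by rw [hη]; exact min_le_right _ _
  refine ⟨η, max 1 (max (2 * C / θ) (8 * C / (c * c₀))), hη0, le_max_left _ _, fun x W3 β τ h δ hx hs hβ => ?_⟩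
  have hx1 : 1 ≤ x := (le_max_left _ _).trans hx
  have hx2 : 2 * C / θ ≤ x := (le_max_left _ _).trans ((le_max_right _ _).trans hx)
  have hx3 : 8 * C / (c * c₀) ≤ x := (le_max_right _ _).trans ((le_max_right _ _).trans hx)
  have hx0 : 0 < x := by linarith
  have h1 := (abs_le.1 hs.cbw).2
  have h2 : W3 ≤ - (θ * x ^ 3) + C * x ^ 2 := by
    have h3 : x ^ 3 * D3 = - (θ * x ^ 3) := by rw [hθ]; ring
    linarith
  have h3 : C * x ^ 2 ≤ θ * x ^ 3 / 2 := by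
    rw [div_le_iff₀ hθ0] at hx2
    have h4 : 2 * C * x ^ 2 ≤ x * θ * x ^ 2 := mul_le_mul_of_nonneg_right hx2 (by positivity)
    nlinarith
  have h4 : θ * x ^ 3 / 2 ≤ 3 * τ * β := by linarith [hs.cub]
  have hτ : 0 < τ := by
    by_contra hcon
    push Not at hcon
    have h5 : 3 * τ * β ≤ 0 := by nlinarith
    have h6 : 0 < θ * x ^ 3 / 2 := by positivity
    linarith
  have h5 : 3 * τ * β ≤ 3 * τ * (C * x) := mul_le_mul_of_nonneg_left hs.hi (by positivity)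
  have h6 : c₀ * x ^ 2 ≤ τ := by
    have h7 : θ * x ^ 3 / 2 ≤ 3 * τ * (C * x) := h4.trans h5
    have h8 : c₀ * x ^ 2 * (3 * (C * x)) = θ * x ^ 3 / 2 := by
      rw [hc₀]
      field_simp
      ring
    have h9 : c₀ * x ^ 2 * (3 * (C * x)) ≤ τ * (3 * (C * x)) := by
      rw [h8]
      linarith
    exact le_of_mul_le_mul_right h9 (by positivity)
  have h7 : c * τ - C * x ≤ C * x * (δ + 2) := by
    have := hs.chi
    have := hs.cub
    have := hs.stp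
    linarith
  have h8 : c * (c₀ * x ^ 2) ≤ c * τ := mul_le_mul_of_nonneg_left h6 hc.le
  have h9 : c * c₀ * x ≤ C * (δ + 3) := by
    have h10 : (c * c₀ * x) * x ≤ (C * (δ + 3)) * x := by nlinarith
    exact le_of_mul_le_mul_right h10 hx0
  have h10 : 8 * C ≤ c * c₀ * x := by
    rw [div_le_iff₀ (by positivity)] at hx3
    linarith
  refine ⟨?_, ?_⟩
  · have h11 : η * x ≤ c * c₀ / (2 * C) * x := mul_le_mul_of_nonneg_right hη2 hx0.le
    have h12 : c * c₀ / (2 * C) * x = c * c₀ * x / (2 * C) := by ring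
    have h13 : c * c₀ * x / (2 * C) < δ := by
      rw [div_lt_iff₀ (by positivity)]
      nlinarith
    linarith
  · have h11 : η * x ^ 2 ≤ c₀ / 2 * x ^ 2 := mul_le_mul_of_nonneg_right hη1 (by positivity)
    have h12 : 0 < c₀ / 2 * x ^ 2 := by positivity
    linarith

theorem siz_spc {D3 c₁ C c c' θ' s₀ K : ℝ} (hC : 0 < C) (hc : 0 < c) (hc' : 0 < c') (hθ : 0 < θ')
    (hD : D3 = - (c' * θ')) (hs₀ : 0 < s₀) (hK : 0 ≤ K) :
    ∃ x₀ : ℝ, 1 ≤ x₀ ∧ ∀ x W3 β τ h δ s : ℝ, x₀ ≤ x → Siz D3 c₁ C c x W3 β τ h δ → s₀ ≤ s →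
      2 * x * (c' * s) - C ≤ β → 0 ≤ - (θ' * x ^ 2) + C * x + 2 * τ * s → K * x < δ := by
  obtain ⟨θ, hθd⟩ : ∃ θ, θ = c' * θ' := ⟨_, rfl⟩
  have hθ0 : 0 < θ := by rw [hθd]; positivity
  obtain ⟨E, hE⟩ : ∃ E, E = C + C * c' + θ * C / (2 * (c' * s₀)) := ⟨_, rfl⟩
  have hE0 : 0 < E := by rw [hE]; positivity
  refine ⟨max 1 (max (C / (2 * (c' * s₀))) (max (C / θ') (6 * (E + C * (K + 4)) / θ))), le_max_left _ _,
    fun x W3 β τ h δ s hx hs hss hβ hS => ?_⟩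
  have hx1 : 1 ≤ x := (le_max_left _ _).trans hx
  have hx2 : C / (2 * (c' * s₀)) ≤ x := (le_max_left _ _).trans ((le_max_right _ _).trans hx)
  have hx3 : C / θ' ≤ x := (le_max_left _ _).trans ((le_max_right _ _).trans ((le_max_right _ _).trans hx))
  have hx4 : 6 * (E + C * (K + 4)) / θ ≤ x :=
    (le_max_right _ _).trans ((le_max_right _ _).trans ((le_max_right _ _).trans hx))
  have hx0 : 0 < x := by linarith
  have hs0 : 0 < s := by linarith
  by_contra hcon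
  push Not at hcon
  have h1 := (abs_le.1 hs.cbw).1
  have h2 : - (θ * x ^ 3) - C * x ^ 2 ≤ W3 := by
    have h3 : x ^ 3 * D3 = - (θ * x ^ 3) := by rw [hD, hθd]; ring
    linarith
  have hsx : C * x ≤ θ' * x ^ 2 := by
    rw [div_le_iff₀ hθ] at hx3
    nlinarith
  have h3 : θ' * x ^ 2 - C * x ≤ 2 * (τ * s) := by linarith
  have hτs : 0 ≤ τ * s := by linarith
  have hτ : 0 ≤ τ := by
    by_contra h4
    push Not at h4
    have h5 : τ * s < 0 := mul_neg_of_neg_of_pos h4 hs0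
    linarith
  -- `1 - C / (2 x c' s) ≥ 1 - C / (2 x c' s₀) ≥ 0`
  obtain ⟨q, hq⟩ : ∃ q, q = 1 - C / (2 * (c' * s₀)) / x := ⟨_, rfl⟩
  have hq0 : 0 ≤ q := by
    rw [hq, sub_nonneg, div_le_one hx0]
    exact hx2
  have hq1 : q ≤ 1 := by
    rw [hq]
    have : 0 ≤ C / (2 * (c' * s₀)) / x := by positivity
    linarith
  have h4 : q * (2 * x * (c' * s)) ≤ β := by
    have h5 : C ≤ (1 - q) * (2 * x * (c' * s)) := by
      rw [hq]
      have h6 : (1 - (1 - C / (2 * (c' * s₀)) / x)) * (2 * x * (c' * s)) = C * (s / s₀) := by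
        field_simp
        ring
      rw [h6]
      have h7 : 1 ≤ s / s₀ := (one_le_div hs₀).2 hss
      nlinarith
    linarith
  have h5 : q * (x * c' * (2 * (τ * s))) ≤ τ * β := by
    have h6 := mul_le_mul_of_nonneg_left h4 hτ
    linarith
  have h6 : q * (x * c' * (θ' * x ^ 2 - C * x)) ≤ τ * β := by
    refine le_trans ?_ h5
    refine mul_le_mul_of_nonneg_left ?_ hq0
    exact mul_le_mul_of_nonneg_left h3 (by positivity)
  have h7 : θ * x ^ 3 - 2 * E * x ^ 2 ≤ q * (x * c' * (θ' * x ^ 2 - C * x)) := by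
    have h8 : q * (x * c' * (θ' * x ^ 2 - C * x)) = q * (θ * x ^ 3) - q * (C * c' * x ^ 2) := by
      rw [hθd]
      ring
    have h9 : q * (C * c' * x ^ 2) ≤ 1 * (C * c' * x ^ 2) := mul_le_mul_of_nonneg_right hq1 (by positivity)
    have h10 : q * (θ * x ^ 3) = θ * x ^ 3 - θ * C / (2 * (c' * s₀)) * x ^ 2 := by
      rw [hq]
      field_simp
    have h11 : 0 ≤ C * x ^ 2 := by positivity
    have h12 : 0 ≤ θ * C / (2 * (c' * s₀)) * x ^ 2 := by positivity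
    have h13 : 0 ≤ C * c' * x ^ 2 := by positivity
    rw [h8, h10, hE]
    nlinarith
  have h8 : h ≤ C * x * (K * x + 2) := hs.stp.trans (mul_le_mul_of_nonneg_left (by linarith) (by positivity))
  have h9 := hs.chi
  have h10 : 0 ≤ c * τ := by positivity
  have h11 : (- (θ * x ^ 3) - C * x ^ 2 + 3 * (θ * x ^ 3 - 2 * E * x ^ 2)) / 6 - C * x ≤ h := by
    have h12 : 3 * (θ * x ^ 3 - 2 * E * x ^ 2) ≤ 3 * τ * β := by linarith
    linarith
  have h12 : C * x ≤ C * x ^ 2 := mul_le_mul_of_nonneg_left (by nlinarith) hC.le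
  have h13 : θ * x ^ 3 / 3 ≤ (E + C * (K + 4)) * x ^ 2 := by
    have h14 : C * x * (K * x + 2) ≤ C * (K + 2) * x ^ 2 := by nlinarith
    nlinarith
  have h14 : θ * x / 3 ≤ E + C * (K + 4) := by
    have h15 : (θ * x / 3) * x ^ 2 ≤ (E + C * (K + 4)) * x ^ 2 := by nlinarith
    exact le_of_mul_le_mul_right h15 (by positivity)
  have h15 : 6 * (E + C * (K + 4)) ≤ θ * x := by
    rw [div_le_iff₀ hθ0] at hx4
    linarith
  have h16 : 0 < E + C * (K + 4) := by positivity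
  linarith

end Pool.Agent.H47.KN
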