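import Pool.Agent.H47.KN.Sq
import Pool.Agent.H24.KN.Mli
import Pool.Agent.H24.KN.N3
import Pool.Agent.H43.WR.Mi

/-!
# [H47 KN N3] K3 fibrations (MP_e49dc9_ag, think 1279, CLAIM 2): the isotropic irrational classes have `D³ ≥ 0`

`n3`: `D` a real class with `D + e A + t F` nef for all `e > 0`, some `t`; `T(F,D,D) = 0 < T(F,D,A)`; `T(F,D,.)` not a multiple of `T(F,W,.)`, `W` integral.  Then `0 ≤ T(D,D,D)`.
`hmi`: `U + t₀ F` nef, `U + s F` effective ⇒ `U + (s + M T(A,U,F)) F` nef, `M` a constant.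

PROOF.  If `D³ < 0`: `W` near `x D` (`wx`), `τ` its threshold, `ρ` a section of `W + v F`, `τ - v > η x`, `τ > η x²` (`siz_neg`).  `mi_of` with `N = (τ - v - 1) / 22`: `W + (τ - 1) F` would be nef: so for some
curve `y` with `(W + (τ - 1) F).y < 0` the order of `ρ` at `y` is `> N ≥ η x / 23`.  `y` is on no special prime (`spc_fin`): the order of `ρ` is at most the sum of the orders of the prime factors through `y`, at most
`η x / 23` (`mlt_all`, `mu_sq`, `sq_low`).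
-/

set_option autoImplicit false

namespace Pool.Agent.H47.KN

open Pool.Agent.H54.RV Pool.Agent.H83.TU Pool.Agent.H83.TK Pool.Agent.H20.TD Pool.Agent.H20.TP Pool.Agent.H20.RT
open Pool.Agent.H32.KF Pool.Agent.H24.KN
open Pool.Agent.H89.RS Pool.Agent.H43.WR
open Pool.Agent.H24.VP (RR)

variable {k K : Type} [Field k] [Field K] [Algebra k K] {X : Mod k K} {r : ℕ}
  {ν : Cart X →* Multiplicative (Fin r → ℤ)} {T : Cart X → Cart X → Cart X → ℝ} {l : Cart X → ℝ} {c : ℝ} {TR : Tri3 r}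
  {J : K → K → K → K} {κ A F : Cart X} {u : K} {D : Fin r → ℝ}

/-- the divisor of a section -/
theorem ex_div {W : Cart X} {ρ : K} (hρ0 : ρ ≠ 0) (hρ : Sec W 1 ρ) :
    Effective (prin X ρ hρ0 * W) ∧ ∀ x, (prin X ρ hρ0 * W).eq x = ρ * W.eq x := by
  have e : ∀ x, (prin X ρ hρ0 * W).eq x = ρ * W.eq x := fun x => by
    rw [mul_eq]
    rfl
  refine ⟨fun x => ?_, e⟩
  rw [e]
  have := hρ x
  rwa [pow_one] at this

theorem hmi [CharZero k] [IsAlgClosed k] [T0Space X.P] (hSm : Pool.Agent.H20.TU.SmP X) (h : Hyp X) (hr : RR T l c)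
    (hν : NumR ν) (hT : ∀ U V W, TR (cR ν U) (cR ν V) (cR ν W) = T U V W) (hJ : Jac X J κ) (hκ : NumZ κ) (hP : Pu X F u)
    (hFF : ∀ D, T F F D = 0) (hF : cR ν F ∈ closure (CC ν)) (hA : Ample A) :
    ∃ M : ℝ, 0 ≤ M ∧ ∀ U : Cart X, (∃ t₀ : ℝ, cR ν U + t₀ • cR ν F ∈ closure (CC ν)) → ∀ s : ℤ,
      0 < h0 (U * F ^ s) 1 → cR ν U + ((s : ℝ) + M * T A U F) • cR ν F ∈ closure (CC ν) := by
  have hFN : ∀ B : Cart X, Ample B → Ample (B * F) :=
    Pool.Agent.H39.TZ.nf_of_cl h.var hν (by rw [cl_eq h.var hν]; exact hF)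
  obtain ⟨n, hn1, hmul⟩ := mul h hr hA hFN hP hFF
  refine ⟨22 * n, by positivity, fun U hU s hs => ?_⟩
  obtain ⟨t₀, ht₀⟩ := hU
  obtain ⟨ρ, hρ0, hE⟩ := Pool.Agent.H20.TK.eff_of_pos _ hs
  have hρ : Sec (U * F ^ s) 1 ρ := by
    intro x
    have h1 := hE x
    rw [pow_one]
    rw [mul_eq] at h1
    exact h1
  obtain ⟨hR, he⟩ := ex_div hρ0 hρ
  have h1 := mi_of hSm h hr hν hT hJ hκ hP hFF hF ht₀ hρ (N := n * T A U F) (fun y hy hf _ d t hd m hm => by
    have h2 := hmul hy hf hd.jet hR m (by rwa [he])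
    have h3 : T F (prin X ρ hρ0 * (U * F ^ s)) A = T A U F := by
      have ht := hr.tri
      rw [ht.add2, ht.add2, ht.zpow2, hFF, mul_zero, add_zero]
      have h4 : T F (prin X ρ hρ0) A = 0 := by
        rw [ht.s23]
        exact prinT h hr ρ hρ0 F A
      rw [h4, zero_add, ht.s23 F U A, ht.s12 F A U, ht.s23 A F U]
    rwa [h3] at h2)
  have e : (s : ℝ) + 22 * n * T A U F = s + 22 * (n * T A U F) := by ring
  rw [e]
  exact h1

theorem n3 [CharZero k] [IsAlgClosed k] [T0Space X.P] (hSm : Pool.Agent.H20.TU.SmP X) (h : Hyp X) (hr : RR T l c)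
    (hν : NumR ν) (hT : ∀ U V W, TR (cR ν U) (cR ν V) (cR ν W) = T U V W) {L : (Fin r → ℝ) →ₗ[ℝ] ℝ}
    (hL : ∀ U, L (cR ν U) = l U) (hJ : Jac X J κ) (hκ : NumZ κ) (hP : Pu X F u)
    (d : FD ν TR A F D) (hlF : 0 < l F)
    (hirr : ¬ ∃ (W : Cart X) (s : ℝ), ∀ v, TR (cR ν F) D v = s * TR (cR ν F) (cR ν W) v) : 0 ≤ TR D D D := by
  by_contra hD3
  push Not at hD3
  have ht := hr.tri
  have hA := d.amp
  have hF := d.nef
  have hFN : ∀ B : Cart X, Ample B → Ample (B * F) :=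
    Pool.Agent.H39.TZ.nf_of_cl h.var hν (by rw [cl_eq h.var hν]; exact hF)
  have hFF : ∀ W, T F F W = 0 := fun W => by rw [← hT, d.sq, LinearMap.zero_apply]
  have hFA : 0 < T F A A := by rw [← hT]; exact d.pos
  have hp : Pcl F 1 u := pcl_pu h hr hP hFA
  -- the special primes
  obtain ⟨t₀, ht₀, hspc⟩ := spc_fin h hr hν hT d (fun P S hS h1 h2 h3 => by
    apply hirr
    refine ⟨S, TR (cR ν F) D (cR ν A) / TR (cR ν F) (cR ν A) (cR ν S), fun v => ?_⟩
    have h4 := fd_eq h hr hν hT d h2 h3 v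
    have h5 : TR (cR ν F) (cR ν S) (cR ν A) = TR (cR ν F) (cR ν A) (cR ν S) := tr_s23 hr hν hT _ _ _
    rw [h5] at h4
    field_simp
    linarith)
  obtain ⟨c₁, C, x₀, hc₁, hC, hx₀, hwx⟩ := wx h hr hν hT hL d hlF hp hD3
  obtain ⟨η, x₁, hη, hx₁, hneg⟩ := siz_neg (c₁ := c₁) hD3 hC hlF
  -- the contradiction for one `x`, given a bound for the orders
  have main : ∀ x : ℝ, x₀ ≤ x → x₁ ≤ x → 23 ≤ η * x → (t₀ + 1) ≤ η * x →
      (∀ (W : Cart X) (τ : ℝ) (v : ℤ) (ρ : K), cR ν W - x • D ∈ CC ν → ‖cR ν W - x • D‖ ≤ C → ρ ≠ 0 → Sec (W * F ^ v) 1 ρ →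
        t₀ * x ≤ τ - 1 → ∀ y : X.P, Algebra.trdeg k (X.kap y) = 1 → 0 < dz h.var y F →
          dR hν h.var y (cR ν W + (τ - 1) • cR ν F) < 0 → ∀ (d : Fin 2 → Derivation k K K) (t : Fin 2 → K),
          Jet X y d t → ∀ n : ℕ, Vn X y d n (ρ * (W * F ^ v).eq y) → (n : ℝ) ≤ η / 23 * x) → False := by
    intro x hx hx' h23 ht0 hbd
    obtain ⟨W, τ, v, hWC, hWN, hτ, hτm, hv, -, hsiz⟩ := hwx x hx
    have hx1 : 1 ≤ x := hx₀.trans hx
    have hβ : 0 < T F W W := lt_of_lt_of_le (by positivity) hsiz.lo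
    obtain ⟨h1, h2⟩ := hneg x _ _ _ _ _ hx' hsiz hβ
    obtain ⟨ρ, hρ0, hE⟩ := Pool.Agent.H20.TK.eff_of_pos _ hv
    have hρ : Sec (W * F ^ v) 1 ρ := by
      intro x
      have h1 := hE x
      rw [pow_one]
      rw [mul_eq] at h1
      exact h1
    have e : (v : ℝ) + 22 * ((τ - v - 1) / 22) = τ - 1 := by ring
    have h3 := mi_of hSm h hr hν hT hJ hκ hP hFF hF hτ hρ (N := (τ - v - 1) / 22) (fun y hy hf hneg' d' t' hd n hn => by
      rw [e] at hneg'
      have h4 := hbd W τ v ρ hWC hWN hρ0 hρ (by nlinarith) y hy hf hneg' d' t' hd.jet n hn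
      have h5 : η / 23 * x ≤ (τ - v - 1) / 22 := by
        rw [div_mul_eq_mul_div, div_le_div_iff₀ (by norm_num) (by norm_num)]
        linarith
      linarith)
    rw [e] at h3
    have h4 := hτm _ h3
    linarith
  by_cases hcur : ∃ y : X.P, Algebra.trdeg k (X.kap y) = 1
  swap
  · -- no curves
    obtain ⟨x, hx⟩ : ∃ x, x = max (max x₀ x₁) (max (23 / η) ((t₀ + 1) / η)) := ⟨_, rfl⟩
    have e1 : 23 / η ≤ x := by rw [hx]; exact (le_max_left _ _).trans (le_max_right _ _)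
    have e2 : (t₀ + 1) / η ≤ x := by rw [hx]; exact (le_max_right _ _).trans (le_max_right _ _)
    rw [div_le_iff₀ hη, mul_comm] at e1 e2
    exact main x (by rw [hx]; exact (le_max_left _ _).trans (le_max_left _ _))
      (by rw [hx]; exact (le_max_right _ _).trans (le_max_left _ _)) e1 e2
      (fun W τ v ρ _ _ _ _ _ y hy => absurd ⟨y, hy⟩ hcur)
  obtain ⟨Ca, hCa, hsq⟩ := mu_sq hSm h hr hA hFN hP hFF hFA hcur
  obtain ⟨Cb, hCb, hlow⟩ := sq_low hSm h hr hA hFN hP hFF hFA hcur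
  obtain ⟨n₀, hn₀, hmul⟩ := mul h hr hA hFN hP hFF
  obtain ⟨x₂, hx₂, hall⟩ := mlt_all h hr hν hT d (C₅ := Ca + Cb) (by positivity) (fun P G hG hAG => by
    have h1 := hlow P G hG hAG
    have h2 : 0 ≤ Ca * T F A G := by positivity
    linarith) C (η := η / 23) (by positivity)
  obtain ⟨x, hx⟩ : ∃ x, x = max (max x₀ x₁) (max x₂ (max (23 / η) ((t₀ + 1) / η))) := ⟨_, rfl⟩
  have e0 : x₂ ≤ x := by rw [hx]; exact (le_max_left _ _).trans (le_max_right _ _)
  have e1 : 23 / η ≤ x := by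
    rw [hx]
    exact (le_max_left _ _).trans ((le_max_right _ _).trans (le_max_right _ _))
  have e2 : (t₀ + 1) / η ≤ x := by
    rw [hx]
    exact (le_max_right _ _).trans ((le_max_right _ _).trans (le_max_right _ _))
  rw [div_le_iff₀ hη, mul_comm] at e1 e2
  have hx0 : 0 < x := lt_of_lt_of_le one_pos (hx₂.trans e0)
  refine main x (by rw [hx]; exact (le_max_left _ _).trans (le_max_left _ _))
    (by rw [hx]; exact (le_max_right _ _).trans (le_max_left _ _)) e1 e2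
    (fun W τ v ρ hWC hWN hρ0 hρ hτ y hy hf hneg' d' t' hd n hn => ?_)
  -- the prime factors
  obtain ⟨hR, he⟩ := ex_div hρ0 hρ
  obtain ⟨Ls, U, g1, g2, g3, g4⟩ := Pool.Agent.H24.VP.fac_eff h hr hR
  have hU : Un (X.O y) (U.eq y) := ⟨U.ne y, g2 y, by
    have := g3 y
    rwa [inv_eq] at this⟩
  -- the orders
  have hord : ∀ p : PDiv X × Cart X, ∃ m : ℕ, p ∈ Ls → Vn X y d' m (p.2.eq y) ∧ ∀ m', Vn X y d' m' (p.2.eq y) → m' ≤ m := by
    intro p
    by_cases hpL : p ∈ Ls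
    swap
    · exact ⟨0, fun h1 => absurd h1 hpL⟩
    have hb := fun m => hmul hy hf hd (g1 p hpL).eff m
    classical
    have hex : ∃ m : ℕ, ¬ Vn X y d' (m + 1) (p.2.eq y) := by
      obtain ⟨m, hm⟩ := exists_nat_gt (n₀ * T F p.2 A)
      refine ⟨m, fun h1 => ?_⟩
      have := hb _ h1
      push_cast at this
      linarith
    refine ⟨Nat.find hex, fun _ => ⟨?_, fun m' hm' => ?_⟩⟩
    · rcases Nat.eq_zero_or_pos (Nat.find hex) with h0 | h0
      · rw [h0]
        exact vn_zero_iff ((g1 p hpL).eff y)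
      · have h1 := Nat.find_min hex (m := Nat.find hex - 1) (by omega)
        rw [not_not, Nat.sub_add_cancel h0] at h1
        exact h1
    · by_contra hcon
      push Not at hcon
      exact Nat.find_spec hex (vn_le hcon hm')
  choose o ho using hord
  have e : ∀ L : List (PDiv X × Cart X), (L.map Prod.snd).prod.eq y = (L.map fun p => p.2.eq y).prod := by
    intro L
    induction L with
    | nil => rw [List.map_nil, List.prod_nil, one_eq, List.map_nil, List.prod_nil]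
    | cons p L ih => rw [List.map_cons, List.prod_cons, mul_eq, ih, List.map_cons, List.prod_cons]
  have hn' : Vn X y d' n ((Ls.map fun p => p.2.eq y).prod * U.eq y) := by
    rw [← e, ← mul_eq, ← g4, he]
    exact hn
  have k1 := vn_list hd (fun p : PDiv X × Cart X => p.2.eq y) (fun p => (o p : ℝ)) Ls
    (fun p hp => (g1 p hp).eff y) (fun p hp m hm => by exact_mod_cast (ho p hp).2 m hm) hU hn'
  -- the factors through `y`
  classical
  obtain ⟨s, hs⟩ : ∃ s : Finset (Fin Ls.length), s = Finset.univ.filter fun i => (Ls.get i).1.η ⤳ y := ⟨_, rfl⟩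
  have hmem : ∀ i, i ∈ s ↔ (Ls.get i).1.η ⤳ y := fun i => by rw [hs]; simp
  have k2 : (Ls.map fun p => (o p : ℝ)).sum = ∑ i ∈ s, (o (Ls.get i) : ℝ) := by
    have h1 : (Ls.map fun p => (o p : ℝ)).sum = ∑ i : Fin Ls.length, (o (Ls.get i) : ℝ) := by
      rw [← List.sum_ofFn]
      congr 1
      conv_lhs => rw [← List.ofFn_get Ls, List.map_ofFn]
      rfl
    rw [h1]
    symm
    refine Finset.sum_subset (Finset.subset_univ s) fun i _ hi => ?_
    rw [hmem] at hi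
    have h2 := (ho _ (Ls.get_mem i)).1
    rw [vn_un ((g1 _ (Ls.get_mem i)).un y hi) h2, Nat.cast_zero]
  rw [k2] at k1
  refine k1.trans ?_
  have hAG : ∀ i ∈ s, 0 < T F A (Ls.get i).2 := by
    intro i hi
    rw [hmem] at hi
    have hS := g1 _ (Ls.get_mem i)
    have h1 : Vn X y d' 1 ((Ls.get i).2.eq y) := by
      refine ⟨hS.eff y, fun a b hab => ?_⟩
      have ha : a = 0 := by omega
      have hb : b = 0 := by omega
      subst ha hb
      change X.rs y ((Ls.get i).2.eq y) = 0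
      by_contra h2
      exact hS.nun y hi (un_le h.var hi ((rs_ne y (hS.eff y)).1 h2))
    have h2 := hmul hy hf hd hS.eff 1 h1
    rw [Nat.cast_one, ht.s23] at h2
    by_contra hcon
    push Not at hcon
    have h3 : (n₀ : ℝ) * T F A (Ls.get i).2 ≤ 0 := mul_nonpos_of_nonneg_of_nonpos (Nat.cast_nonneg _) hcon
    linarith
  refine hall x W v Ls (fun i => (o (Ls.get i) : ℝ)) s e0 hWC hWN g1 (fun a b => ?_) hAG (fun i hi => ?_) (fun i hi => ?_)
  · have h1 : cR ν (W * F ^ v) = cR ν (Ls.map Prod.snd).prod + cR ν U := by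
      rw [← Pool.Agent.H32.RT.cr_prin hν (W * F ^ v) ρ hρ0, g4, cR_mul]
    rw [h1, map_add, list_tr, tr_triv h hr hν hT g2 g3, add_zero]
  · -- not special
    have hS := g1 _ (Ls.get_mem i)
    refine lt_of_le_of_ne (fd_S h hr hν hT d _ hS) fun h1 => ?_
    have h2 := hspc t₀ le_rfl (Ls.get i).1 (Ls.get i).2 hS (by rw [hT]; exact hAG i hi) h1.symm y
      ⟨(hmem i).1 hi, hy⟩
    have h3 := dR_cc hν h.var hA hy hWC
    rw [map_sub, map_smul, smul_eq_mul] at h3
    rw [map_add, map_smul, smul_eq_mul] at h2 hneg'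
    have h4 : (0 : ℝ) < dR hν h.var y (cR ν F) := by
      rw [dR_ci hν h.var h.amp hy]
      exact_mod_cast hf
    have h5 : t₀ * x * dR hν h.var y (cR ν F) ≤ (τ - 1) * dR hν h.var y (cR ν F) :=
      mul_le_mul_of_nonneg_right hτ h4.le
    nlinarith
  · have hS := g1 _ (Ls.get_mem i)
    have h1 := hsq _ _ hS hy hf hd _ (ho _ (Ls.get_mem i)).1
    refine h1.trans (mul_le_mul_of_nonneg_right (by linarith) ?_)
    have h2 := hAG i hi
    have h3 := le_max_right (T F (Ls.get i).2 (Ls.get i).2) 0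
    linarith

end Pool.Agent.H47.KN
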