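import Pool.Agent.H89.RS.Wrd
import Pool.Agent.H16.WR.Tay

/-!
# [H47 KN Dom] K3 fibrations (MP_e49dc9_ag): the order of vanishing along a curve is additive

`Jet X y d t` (H89/RS/Def): commuting derivations `d 0`, `d 1` of `K` which map the local ring at `y` to itself; `Vn X y d n f`: `f` is in the local ring and
all `wd d a b f = d 0 ^ a (d 1 ^ b f)`, `a + b < n`, vanish at `y`.

`vn_dom`: if `f` is not of order `≥ m + 1` and `g` is not of order `≥ n + 1` then `f g` is not of order `≥ m + n + 1`.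

PROOF.  By the Taylor series (`tay_mul`, H16/WR/Tay).  (A direct proof: decreasing `m`, `n`: we may assume `Vn X y d m f`, `Vn X y d n g` (take `m`, `n` minimal: `Nat.find`; `Vn (m + n + 1)` implies `Vn (m' + n' + 1)` for
`m' ≤ m`, `n' ≤ n`).  Choose `i ≤ m` MAXIMAL with `rs (wd d i (m - i) f) ≠ 0`, `j ≤ n` maximal with `rs (wd d j (n - j) g) ≠ 0`.  CLAIM (below, `lead`):
`rs (wd d (i + j) (m + n - i - j) (f * g)) = C * rs (wd d i (m - i) f) * rs (wd d j (n - j) g)` with a natural number `C ≥ 1`.  As `k` has characteristic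
zero and `X.kap y` is a field this is not `0`.
CLAIM by induction on `m + n`, in this form: `Vn m f`, `Vn n g`, `i ≤ m`, `j ≤ n`, `rs (wd d i' (m - i') f) = 0` for all `i < i' ≤ m` and the same for `g`, `j`, `n`.
If `i + j = 0` and `m + n = 0`: `rs` is multiplicative.  If `i + j > 0`: `wd d (i + j) b (f g) = wd d (i + j - 1) b (d 0 (f g))` (the derivations commute: `wd_s0` of
H89/RS/Wrd, private there, copy it), `d 0 (f g) = f * d 0 g + g * d 0 f` (`Derivation.leibniz`).
The term `g * d 0 f`: if `i > 0` then `d 0 f` satisfies the hypotheses with `(m - 1, i - 1)`: induction, a natural number `C₁ ≥ 1`; if `i = 0` then `Vn m (d 0 f)`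
(its derivatives of order `m - 1` are `wd d (i' + 1) (m - 1 - i') f`, `i' + 1 > 0 = i`; those of order `< m - 1` are zero by `Vn m f`), so
`Vn (m + n) (g * d 0 f)` (`vn_mul`) and `wd d (i + j - 1) b` of it, of order `m + n - 1 < m + n`, vanishes: `0`.  The same for `f * d 0 g`.  At least one of
`i`, `j` is positive: `C = C₁ + C₂ ≥ 1`.
If `i + j = 0` and `m + n > 0`: the same with `d 1`: `wd d 0 (m + n) (f g) = wd d 0 (m + n - 1) (d 1 (f g))`; if `m > 0`: `d 1 f` satisfies the hypotheses with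
`(m - 1, 0)`; if `m = 0`: `Vn 0 (d 1 f)`, `Vn n (g * d 1 f)` and the order is `n - 1 < n`: the term is `0`.)
-/

set_option autoImplicit false

namespace Pool.Agent.H47.KN

open Pool.Agent.H54.RV Pool.Agent.H83.TU Pool.Agent.H83.TK Pool.Agent.H89.RS

variable {k K : Type} [Field k] [Field K] [Algebra k K] {X : Mod k K}

theorem vn_dom [CharZero k] {y : X.P} {d : Fin 2 → Derivation k K K} {t : Fin 2 → K} (hJ : Jet X y d t) {m n : ℕ} {f g : K}
    (hf : f ∈ X.O y) (hg : g ∈ X.O y) (h1 : ¬ Vn X y d (m + 1) f) (h2 : ¬ Vn X y d (n + 1) g) :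
    ¬ Vn X y d (m + n + 1) (f * g) := by
  rw [Pool.Agent.H16.WR.vn_iff hf, not_le] at h1
  rw [Pool.Agent.H16.WR.vn_iff hg, not_le] at h2
  rw [Pool.Agent.H16.WR.vn_iff ((X.O y).mul_mem hf hg), not_le, Pool.Agent.H16.WR.tay_mul hJ hf hg,
    MvPowerSeries.order_mul]
  obtain ⟨a, ha⟩ := ENat.ne_top_iff_exists.1 (ne_top_of_lt h1)
  obtain ⟨b, hb⟩ := ENat.ne_top_iff_exists.1 (ne_top_of_lt h2)
  rw [← ha] at h1 ⊢
  rw [← hb] at h2 ⊢
  have h3 : a < m + 1 := by exact_mod_cast h1
  have h4 : b < n + 1 := by exact_mod_cast h2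
  exact_mod_cast (by omega : a + b < m + n + 1)

end Pool.Agent.H47.KN
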