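import Pool.Agent.H20.TU.SmP
import Pool.Agent.H39.TK.Pri
import Pool.Agent.H83.TU.PO

/-!
# [H47 KN Ed] K3 fibrations (MP_e49dc9_ag): a divisor which bounds the poles of three derivations and of three functions

`ex_ed`: for derivations `θ i` of `K` over `k` and elements `x i` of `K` (`i : Fin 3`) there is an effective `E` such that for all points `z` of `X`: `E.eq z * θ i f` is in the
local ring at `z` for all `f` in it, and `E.eq z * x i` is in the local ring at `z`.

PROOF.  For the derivations this is the proof of `ex_bd` in H89/RS/Bnd.lean (copy it, also the private lemmas `bnd_den`, `bnd_loc`) with the generic point `g` (`h.gen`, `X.O g = ⊤`,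
`g ⤳ x` for all `x`) in place of `y`, and with all the points of `X` in place of the points of the curve (`X.P` is compact, `h.var.comp`); the hypothesis `Jet.st` is not needed at `g`
since `X.O g = ⊤`, and `Un (X.O g) a` is `a ≠ 0`.  Local step: `A` ample (`h.amp`), `x ∈ U := nz A n s` affine, `X.sec U` generated by a finite set `S`, `σ ∈ X.sec U`, `σ ≠ 0`, with
`σ * θ i b ∈ X.sec U` for all `b ∈ S`, `i` (`h.var.frac` at `g`); `prin X (s ^ N * σ) * A ^ (n N)` for large `N` (`ext_nz`).  For `x i`: `polar h (x i)` (H83/TU/PO) if `x i ≠ 0`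
(`Sec M 1 ζ` says `ζ * M.eq z ^ 1 ∈ X.O z`), `1` if `x i = 0`.  `E` = the product of all these effective divisors.
-/

set_option autoImplicit false

namespace Pool.Agent.H47.KN

open Pool.Agent.H54.RV Pool.Agent.H83.TU Pool.Agent.H83.TK

variable {k K : Type} [Field k] [Field K] [Algebra k K] {X : Mod k K}

/-- a common denominator -/
private theorem ed_den (hX : IsVar X) {U : Set X.P} (hU : X.aff U) {y : X.P} (hy : y ∈ U) (F : Finset K)
    (hF : ∀ f ∈ F, f ∈ X.O y) : ∃ σ ∈ X.sec U, Un (X.O y) σ ∧ ∀ f ∈ F, σ * f ∈ X.sec U := by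
  classical
  induction F using Finset.induction_on with
  | empty => exact ⟨1, (X.sec U).one_mem, un_one _, fun f hf => absurd hf (Finset.notMem_empty f)⟩
  | insert a F _ ih =>
    obtain ⟨σ, h1, h2, h3⟩ := ih fun f hf => hF f (Finset.mem_insert_of_mem hf)
    obtain ⟨τ, h4, h5, h6⟩ := hX.frac U y hU hy a (hF a (Finset.mem_insert_self a F))
    refine ⟨σ * τ, (X.sec U).mul_mem h1 h4, un_mul h2 h5, fun f hf => ?_⟩
    rcases Finset.mem_insert.1 hf with rfl | hf
    · have e : σ * τ * f = σ * (f * τ) := by ring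
      rw [e]
      exact (X.sec U).mul_mem h1 h6
    · have e : σ * τ * f = τ * (σ * f) := by ring
      rw [e]
      exact (X.sec U).mul_mem h4 (h3 f hf)

/-- a divisor near the point `x` -/
private theorem ed_loc (hX : IsVar X) {A : Cart X} (hA : Ample A) {y : X.P} (hy : Gen X y)
    (d : Fin 3 → Derivation k K K) (x : X.P) : ∃ (V : Set X.P) (E : Cart X), IsOpen V ∧ x ∈ V ∧ Effective E ∧
      ∀ x' ∈ V, ∀ i, ∀ f ∈ X.O x', E.eq x' * d i f ∈ X.O x' := by
  classical
  obtain ⟨n, -, s, hs, hxU, hU⟩ := hA x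
  have hop : IsOpen (nz A n s) := hX.op _ hU
  have hyU : y ∈ nz A n s := (hy.spec x).mem_open hop hxU
  have hs0 : s ≠ 0 := left_ne_zero_of_mul (show Un (X.O x) (s * A.eq x ^ n) from hxU).1
  obtain ⟨S, hS⟩ := hX.fg _ hU ⟨x, hxU⟩
  obtain ⟨σ, h1, h2, h3⟩ := ed_den hX hU hyU (Finset.univ.biUnion fun i => S.image (d i)) (by
    intro f _
    rw [hy.top]
    exact Algebra.mem_top)
  have h4 : ∀ i, ∀ b ∈ S, σ * d i b ∈ X.sec (nz A n s) := by
    intro i b hb
    apply h3
    rw [Finset.mem_biUnion]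
    exact ⟨i, Finset.mem_univ _, Finset.mem_image_of_mem _ hb⟩
  have h5 : ∀ i, ∀ f ∈ X.sec (nz A n s), σ * d i f ∈ X.sec (nz A n s) := by
    intro i f hf
    rw [← hS] at hf
    have hsub : Algebra.adjoin k (S : Set K) = X.sec (nz A n s) := hS
    induction hf using Algebra.adjoin_induction with
    | mem b hb => exact h4 i b (Finset.mem_coe.1 hb)
    | algebraMap r =>
      rw [Derivation.map_algebraMap, mul_zero]
      exact (X.sec _).zero_mem
    | add f g _ _ hf hg =>
      rw [map_add, mul_add]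
      exact (X.sec _).add_mem hf hg
    | mul f g hf0 hg0 hf hg =>
      rw [hsub] at hf0 hg0
      rw [Derivation.leibniz]
      have e : σ * (f • d i g + g • d i f) = f * (σ * d i g) + g * (σ * d i f) := by
        rw [smul_eq_mul, smul_eq_mul]
        ring
      rw [e]
      exact (X.sec _).add_mem ((X.sec _).mul_mem hf0 hg) ((X.sec _).mul_mem hg0 hf)
  have h6 : ∀ x' ∈ nz A n s, ∀ i, ∀ f ∈ X.O x', σ * d i f ∈ X.O x' := by
    intro x' hx' i f hf
    obtain ⟨τ, ht1, ht2, ht3⟩ := hX.frac _ x' hU hx' f hf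
    have e1 := (mem_sec _ _).1 (h5 i _ ht3) x' hx'
    have e2 := (mem_sec _ _).1 (h5 i _ ht1) x' hx'
    rw [Derivation.leibniz, smul_eq_mul, smul_eq_mul] at e1
    have e3 : σ * d i f * τ ∈ X.O x' := by
      have e : σ * d i f * τ = σ * (f * d i τ + τ * d i f) - f * (σ * d i τ) := by ring
      rw [e]
      exact (X.O x').sub_mem e1 ((X.O x').mul_mem hf e2)
    exact (mem_mul_un ht2).1 e3
  obtain ⟨N, hN⟩ := Pool.Agent.H39.TK.ext_nz hX hs σ h1
  have hne : s ^ N * σ ≠ 0 := mul_ne_zero (pow_ne_zero _ hs0) h2.1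
  have heq : ∀ z, (prin X (s ^ N * σ) hne * A ^ (n * N)).eq z = (s * A.eq z ^ n) ^ N * σ := by
    intro z
    rw [mul_eq, pow_eq]
    change s ^ N * σ * A.eq z ^ (n * N) = _
    rw [mul_pow, ← pow_mul]
    ring
  refine ⟨nz A n s, prin X (s ^ N * σ) hne * A ^ (n * N), hop, hxU, fun z => ?_, ?_⟩
  · rw [mul_eq, pow_eq]
    exact hN z
  · intro x' hx' i f hf
    rw [heq, mul_assoc]
    exact (X.O x').mul_mem (un_pow hx' N).2.1 (h6 x' hx' i f hf)

private theorem ed_one (h : Hyp X) (x : K) : ∃ E : Cart X, Effective E ∧ ∀ z : X.P, E.eq z * x ∈ X.O z := by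
  by_cases hx : x = 0
  · refine ⟨1, fun z => (X.O z).one_mem, fun z => ?_⟩
    rw [hx, mul_zero]
    exact (X.O z).zero_mem
  · obtain ⟨M, h1, h2, -⟩ := polar h x hx
    refine ⟨M, h1, fun z => ?_⟩
    have h3 := h2 z
    rw [pow_one, mul_comm] at h3
    exact h3

theorem ex_ed (h : Hyp X) (θ : Fin 3 → Derivation k K K) (x : Fin 3 → K) : ∃ E : Cart X, Effective E ∧
    (∀ z : X.P, ∀ i, ∀ f ∈ X.O z, E.eq z * θ i f ∈ X.O z) ∧ ∀ (z : X.P) (i : Fin 3), E.eq z * x i ∈ X.O z := by
  classical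
  obtain ⟨A, hA⟩ := h.amp
  obtain ⟨g, hg⟩ := h.gen
  have hcomp := h.var.comp
  have key := fun z : X.P => ed_loc h.var hA hg θ z
  choose V E hV hxV hE hE2 using key
  obtain ⟨T, hT2⟩ := isCompact_univ.elim_nhds_subcover V (fun z _ => (hV z).mem_nhds (hxV z))
  choose M hM1 hM2 using fun i => ed_one h (x i)
  have heff : ∀ T' : Finset X.P, Effective (∏ z ∈ T', E z) := by
    intro T'
    refine Finset.prod_induction E (fun E => Effective E) ?_ ?_ ?_
    · intro a b ha hb z
      exact (X.O z).mul_mem (ha z) (hb z)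
    · exact fun z => (X.O z).one_mem
    · intro z _
      exact hE z
  have heff2 : ∀ T' : Finset (Fin 3), Effective (∏ z ∈ T', M z) := by
    intro T'
    refine Finset.prod_induction M (fun E => Effective E) ?_ ?_ ?_
    · intro a b ha hb z
      exact (X.O z).mul_mem (ha z) (hb z)
    · exact fun z => (X.O z).one_mem
    · intro z _
      exact hM1 z
  refine ⟨(∏ z ∈ T, E z) * ∏ i, M i, fun z => (X.O z).mul_mem (heff T z) (heff2 Finset.univ z), ?_, ?_⟩
  · intro x' i f hf
    have h1 := hT2.2 (Set.mem_univ x')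
    rw [Set.mem_iUnion₂] at h1
    obtain ⟨z, hz, hxx⟩ := h1
    rw [← Finset.mul_prod_erase T E hz, mul_eq, mul_eq]
    have h2 := heff (T.erase z) x'
    have h3 := hE2 z x' hxx i f hf
    have h4 := heff2 Finset.univ x'
    have e : (E z).eq x' * (∏ z ∈ T.erase z, E z).eq x' * (∏ i, M i).eq x' * θ i f =
        (∏ z ∈ T.erase z, E z).eq x' * (∏ i, M i).eq x' * ((E z).eq x' * θ i f) := by ring
    rw [e]
    exact (X.O x').mul_mem ((X.O x').mul_mem h2 h4) h3
  · intro z i
    rw [← Finset.mul_prod_erase Finset.univ M (Finset.mem_univ i), mul_eq, mul_eq]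
    have h1 := heff T z
    have h2 := heff2 (Finset.univ.erase i) z
    have h3 := hM2 i z
    have e : (∏ z ∈ T, E z).eq z * ((M i).eq z * (∏ i ∈ Finset.univ.erase i, M i).eq z) * x i =
        (∏ z ∈ T, E z).eq z * (∏ i ∈ Finset.univ.erase i, M i).eq z * ((M i).eq z * x i) := by ring
    rw [e]
    exact (X.O z).mul_mem ((X.O z).mul_mem h1 h2) h3

end Pool.Agent.H47.KN
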