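import Pool.Agent.H47.KN.Ubg
import Pool.Agent.H24.RG.Glb

/-!
# [H47 KN F2] K3 fibrations (MP_e49dc9_ag): sections of `S + m A + n F` which do not vanish on `S`, `m` small

PROOF.  `glb_one` for `S + m A` and `ubg` for `m A`: the numbers of sections of `S + m A + n F` and of `m A + n F` grow with `n` like
`n (T(F,S+mA,S+mA)/2 + l F)` and at most `n (m² T(F,A,A)/2 + l F)`; the difference of the slopes is `T(F,S,S)/2 + m T(F,A,S)`.
-/

set_option autoImplicit false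

namespace Pool.Agent.H47.KN

open Pool.Agent.H54.RV Pool.Agent.H83.TU Pool.Agent.H83.TK Pool.Agent.H20.TD Pool.Agent.H20.TP Pool.Agent.H43.WR
open Pool.Agent.H24.VP (RR chS chi)

variable {k K : Type} [Field k] [Field K] [Algebra k K] {X : Mod k K}
  {T : Cart X → Cart X → Cart X → ℝ} {l : Cart X → ℝ} {c : ℝ}

theorem ex_f2 [CharZero k] [T0Space X.P] (h : Hyp X) (hr : RR T l c) {A F : Cart X} (hA : Ample A)
    (hF : ∀ B : Cart X, Ample B → Ample (B * F)) {u : K} (hP : Pu X F u) (hFF : ∀ D, T F F D = 0)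
    (hFA : 0 < T F A A) :
    ∃ c₀ : ℝ, 0 ≤ c₀ ∧ ∀ (z : X.P) (S : Cart X), SPr X z S → 0 < T F A S → ∃ (m n : ℕ) (f : K),
      Sec (S * A ^ m * F ^ n) 1 f ∧ Un (X.O z) (f * (S * A ^ m * F ^ n).eq z) ∧
      2 * T F S S + 2 * m * T F A S ≤ max (2 * T F S S) (T F S S) + c₀ * T F A S := by
  have ht := hr.tri
  obtain ⟨k₂, hk₂⟩ := ubg h hr hA hP hFF
  obtain ⟨m₀, hm₀, hglb⟩ := Pool.Agent.H24.RG.glb_one h hr hA hF hFF hFA
  obtain ⟨k₁, hk₁⟩ := exists_nat_gt (m₀ / T F A A)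
  rw [div_lt_iff₀ hFA] at hk₁
  obtain ⟨k₀, hk₀⟩ : ∃ k₀, k₀ = k₁ + k₂ := ⟨_, rfl⟩
  refine ⟨2 * (k₀ + 1), by positivity, fun z S hS hAS => ?_⟩
  obtain ⟨a, ha⟩ : ∃ a, a = T F A S := ⟨_, rfl⟩
  obtain ⟨g, hg⟩ : ∃ g, g = T F S S := ⟨_, rfl⟩
  rw [← ha] at hAS ⊢
  rw [← hg]
  -- the multiple
  obtain ⟨m₁, hm₁a, hm₁b⟩ : ∃ m₁ : ℕ, 0 ≤ g / 2 + m₁ * a ∧ 2 * m₁ * a ≤ max (-g) 0 + 2 * a := by
    refine ⟨⌈max (-g) 0 / (2 * a)⌉₊, ?_, ?_⟩
    · have h1 := Nat.le_ceil (max (-g) 0 / (2 * a))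
      rw [div_le_iff₀ (by positivity)] at h1
      have h2 := le_max_left (-g) 0
      linarith
    · have h1 := Nat.ceil_lt_add_one (a := max (-g) 0 / (2 * a)) (by positivity)
      have h2 : (⌈max (-g) 0 / (2 * a)⌉₊ : ℝ) * (2 * a) < (max (-g) 0 / (2 * a) + 1) * (2 * a) :=
        mul_lt_mul_of_pos_right h1 (by positivity)
      rw [add_mul, div_mul_cancel₀ _ (by positivity)] at h2
      linarith
  obtain ⟨m, hm⟩ : ∃ m, m = m₁ + k₀ := ⟨_, rfl⟩
  have hk₀1 : (k₁ : ℝ) ≤ k₀ := by rw [hk₀]; push_cast; linarith [Nat.cast_nonneg (α := ℝ) k₂]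
  have hmr : (m : ℝ) = m₁ + k₀ := by rw [hm]; push_cast; ring
  have hm1r : (0 : ℝ) ≤ m₁ := Nat.cast_nonneg _
  rcases Nat.eq_zero_or_pos k₀ with hk0 | hk0
  · -- `k₀ = 0` is impossible
    exfalso
    have h1 : k₁ = 0 := by omega
    rw [h1, Nat.cast_zero, zero_mul] at hk₁
    linarith
  have hslope : 0 < g / 2 + m * a := by
    rw [hmr]
    have : (0 : ℝ) < k₀ * a := mul_pos (by exact_mod_cast hk0) hAS
    nlinarith
  obtain ⟨C, hC⟩ := hk₂ m (by omega)
  obtain ⟨C', n₀, hC'⟩ := hglb (S * A ^ m) (by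
    rw [ht.add2, ht.pow2]
    have h1 : T F S A = a := by rw [ht.s23, ha]
    rw [h1]
    have h2 : (k₁ : ℝ) * T F A A ≤ m * T F A A := mul_le_mul_of_nonneg_right (by rw [hmr]; linarith) hFA.le
    linarith)
  obtain ⟨n₁, hn₁⟩ := exists_nat_gt ((C + C') / (g / 2 + m * a))
  rw [div_lt_iff₀ hslope] at hn₁
  obtain ⟨n, hn⟩ : ∃ n, n = n₀ + n₁ := ⟨_, rfl⟩
  have h1 := hC n
  have h2 := hC' n (by omega)
  have e1 : T F (S * A ^ m) (S * A ^ m) = g + 2 * m * a + m ^ 2 * T F A A := by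
    simp only [ht.add2, ht.add3, ht.pow2, ht.pow3]
    rw [ht.s23 F S A, ← ha, ← hg]
    ring
  rw [e1] at h2
  have hlt : (h0 (A ^ m * F ^ n) 1 : ℝ) < h0 (S * A ^ m * F ^ n) 1 := by
    have h3 : (n₁ : ℝ) * (g / 2 + m * a) ≤ n * (g / 2 + m * a) :=
      mul_le_mul_of_nonneg_right (by rw [hn]; push_cast; linarith [Nat.cast_nonneg (α := ℝ) n₀]) hslope.le
    nlinarith
  have hlt' : h0 (A ^ m * F ^ n) 1 < h0 (S * A ^ m * F ^ n) 1 := by exact_mod_cast hlt
  -- a section which does not vanish on `S`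
  have hex : ∃ f, Sec (S * A ^ m * F ^ n) 1 f ∧ Un (X.O z) (f * (S * A ^ m * F ^ n).eq z) := by
    by_contra hcon
    push Not at hcon
    have hle : secL (S * A ^ m * F ^ n) 1 ≤ secL (A ^ m * F ^ n) 1 := by
      intro f hf x
      have h4 := hf x
      rw [pow_one] at h4 ⊢
      by_cases hzx : z ⤳ x
      · have h5 := hS.ker x hzx (f * (S * A ^ m * F ^ n).eq x) h4 (fun h6 => by
          apply hcon f hf
          have h7 := quo_un (S * A ^ m * F ^ n) z x hzx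
          have e : f * (S * A ^ m * F ^ n).eq z = f * (S * A ^ m * F ^ n).eq x *
              ((S * A ^ m * F ^ n).eq x / (S * A ^ m * F ^ n).eq z)⁻¹ := by
            have := (S * A ^ m * F ^ n).ne x
            have := (S * A ^ m * F ^ n).ne z
            field_simp
          rw [e]
          exact un_mul h6 (un_inv h7))
        have e : f * (S * A ^ m * F ^ n).eq x / S.eq x = f * (A ^ m * F ^ n).eq x := by
          have := S.ne x
          rw [mul_eq, mul_eq, mul_eq]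
          field_simp
        rwa [e] at h5
      · have h5 := (X.O x).mul_mem h4 (hS.un x hzx).2.2
        have e : f * (S * A ^ m * F ^ n).eq x * (S.eq x)⁻¹ = f * (A ^ m * F ^ n).eq x := by
          have := S.ne x
          rw [mul_eq, mul_eq, mul_eq]
          field_simp
        rwa [e] at h5
    have f1 : FiniteDimensional k (secL (A ^ m * F ^ n) 1) := Pool.Agent.H24.TK.fd h.var h.gen hA _
    have h5 := Submodule.finrank_mono hle
    unfold h0 at hlt'
    omega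
  obtain ⟨f, hf1, hf2⟩ := hex
  refine ⟨m, n, f, hf1, hf2, ?_⟩
  rw [hmr]
  have h3 : 2 * g + max (-g) 0 ≤ max (2 * g) g := by
    rcases le_total g 0 with h4 | h4
    · rw [max_eq_right (show 2 * g ≤ g by linarith), max_eq_left (by linarith)]
      linarith
    · rw [max_eq_left (show g ≤ 2 * g by linarith), max_eq_right (by linarith)]
      linarith
  nlinarith

end Pool.Agent.H47.KN
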