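import Pool.Agent.H47.KN.Vd
import Pool.Agent.H83.TK.SubE

/-!
# [H47 KN Wrn] K3 fibrations (MP_e49dc9_ag): the divisor of a Wronskian of two sections, one of which vanishes on `S`

`S` a prime divisor with generic point `z`, `M = S * B`, `α` a section of `B`, a unit at `z`; `f` a section of `M`, a unit at `z`; `δ` a derivation of `K`, `E.eq x * δ` preserves the local ring at `x` for
all `x`, `E` effective and a unit at `z`, and `δ (S.eq z)` does not vanish at `z`.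
`wrn`: there is an effective `R`, `R = prin g * M ^ 2 * E` with `g ≠ 0`, a unit at `z`, such that at all curves `y`, for all jets: `S.eq y` of order `≥ μ + 1` ⇒ `R.eq y` of order `≥ μ`.

PROOF.  `α` is a section of `M` too, since `S` is effective: `α * M.eq x = (α * B.eq x) * S.eq x`.  `g := α * δ f - f * δ α`.  For all `x` and `a b : K`, `e : K`:
`(a * δ b - b * δ a) * e ^ 2 = (a e) * δ (b e) - (b e) * δ (a e)` (Leibniz).  So `g * (M.eq x) ^ 2 * E.eq x = (α M_x) (E_x δ (f M_x)) - (f M_x) (E_x δ (α M_x)) ∈ X.O x`: effective.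
AT `z`: `α M_z = (α B_z) S_z` with `rs z = 0` (`SPr.nun`, `SPr.eff`), `δ (α M_z) = (α B_z) δ (S_z) + S_z δ (α B_z)` (`δ` preserves `X.O z` because `E.eq z` is a unit), so
`X.rs z (g M_z² E_z) = - rs (f M_z) * rs (E_z) * rs (α B_z) * rs (δ (S_z)) ≠ 0`: a unit at `z` (`rs_ne`), and `g ≠ 0`.
AT `y`: let `Vn X y d (μ + 1) (S.eq y)`.  `α M_y = (α B_y) S_y`: `Vn (μ + 1)` (`vn_mul` of H89/RS/Wrd with `Vn 0` for `α B_y`).  `E.eq y • δ` is a derivation which preserves `X.O y`: `vn_der`: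
`Vn μ (E_y δ (α M_y))`, `E_y δ (f M_y) ∈ X.O y`, `f M_y ∈ X.O y`: both products are `Vn μ` (`vn_mul`, and `Vn (μ + 1)` implies `Vn μ`), so is the difference (`wd_add`, `wd_smul` with `-1`).
-/

set_option autoImplicit false

namespace Pool.Agent.H47.KN

open Pool.Agent.H54.RV Pool.Agent.H83.TU Pool.Agent.H83.TK Pool.Agent.H89.RS

variable {k K : Type} [Field k] [Field K] [Algebra k K] {X : Mod k K}

private theorem vn_antiW {y : X.P} {d : Fin 2 → Derivation k K K} {m n : ℕ} (h : m ≤ n) {f : K}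
    (hf : Vn X y d n f) : Vn X y d m f := ⟨hf.1, fun a b hab => hf.2 a b (by omega)⟩

private theorem vn_subW {y : X.P} {d : Fin 2 → Derivation k K K} {t : Fin 2 → K} (hJ : Jet X y d t) {n : ℕ} {f g : K}
    (hf : Vn X y d n f) (hg : Vn X y d n g) : Vn X y d n (f - g) := by
  refine ⟨sub_mem hf.1 hg.1, fun a b hab => ?_⟩
  have e : f - g = f + (-1 : k) • g := by rw [neg_smul, one_smul, sub_eq_add_neg]
  have hg1 : (-1 : k) • wd d a b g ∈ X.O y := (X.O y).smul_mem (wd_mem hJ a b hg.1) _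
  rw [e, wd_add, wd_smul, rs_add y (wd_mem hJ a b hf.1) hg1, hf.2 a b hab, zero_add, Algebra.smul_def,
    rs_mul y ((X.O y).algebraMap_mem _) (wd_mem hJ a b hg.1), hg.2 a b hab, mul_zero]

private theorem vn_ulW {y : X.P} {d : Fin 2 → Derivation k K K} {t : Fin 2 → K} (hJ : Jet X y d t) {n : ℕ} {f u : K}
    (hf : Vn X y d n f) (hu : u ∈ X.O y) : Vn X y d n (u * f) := by
  have h : Vn X y d 0 u := ⟨hu, fun a b hab => absurd hab (Nat.not_lt_zero _)⟩
  have h1 := vn_mul hJ h hf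
  rwa [Nat.zero_add] at h1

theorem wrn [CharZero k] [IsAlgClosed k] (hSm : Pool.Agent.H20.TU.SmP X) (h : Hyp X) {z : X.P} {S B E : Cart X}
    (hS : SPr X z S) {α f : K} (hα : Sec B 1 α) (hαu : Un (X.O z) (α * B.eq z)) (hf : Sec (S * B) 1 f)
    (hfu : Un (X.O z) (f * (S * B).eq z)) (δ : Derivation k K K) (hE : Effective E) (hEu : Un (X.O z) (E.eq z))
    (hst : ∀ x : X.P, ∀ a ∈ X.O x, E.eq x * δ a ∈ X.O x) (hδ : X.rs z (δ (S.eq z)) ≠ 0) :
    ∃ (g : K) (hg : g ≠ 0), Effective (prin X g hg * (S * B) ^ 2 * E) ∧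
      Un (X.O z) ((prin X g hg * (S * B) ^ 2 * E).eq z) ∧
      ∀ {y : X.P}, Algebra.trdeg k (X.kap y) = 1 → ∀ {d : Fin 2 → Derivation k K K} {t : Fin 2 → K}, Jet X y d t →
        ∀ μ : ℕ, Vn X y d (μ + 1) (S.eq y) → Vn X y d μ ((prin X g hg * (S * B) ^ 2 * E).eq y) := by
  obtain ⟨g, hg⟩ : ∃ g, g = α * δ f - f * δ α := ⟨_, rfl⟩
  have hM : ∀ x, (S * B).eq x = S.eq x * B.eq x := fun x => mul_eq _ _ _
  have hαB : ∀ x, α * B.eq x ∈ X.O x := fun x => by
    have := hα x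
    rwa [pow_one] at this
  have hfM : ∀ x, f * (S * B).eq x ∈ X.O x := fun x => by
    have := hf x
    rwa [pow_one] at this
  have eα : ∀ x, α * (S * B).eq x = α * B.eq x * S.eq x := fun x => by
    rw [hM]
    ring
  have hαM : ∀ x, α * (S * B).eq x ∈ X.O x := fun x => by
    rw [eα]
    exact (X.O x).mul_mem (hαB x) (hS.eff x)
  have id0 : ∀ x, g * (S * B).eq x ^ 2 * E.eq x =
      α * (S * B).eq x * (E.eq x * δ (f * (S * B).eq x)) - f * (S * B).eq x * (E.eq x * δ (α * (S * B).eq x)) := by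
    intro x
    rw [hg, Derivation.leibniz, Derivation.leibniz, smul_eq_mul, smul_eq_mul, smul_eq_mul, smul_eq_mul]
    ring
  have hmem : ∀ x, g * (S * B).eq x ^ 2 * E.eq x ∈ X.O x := by
    intro x
    rw [id0]
    exact (X.O x).sub_mem ((X.O x).mul_mem (hαM x) (hst x _ (hfM x))) ((X.O x).mul_mem (hfM x) (hst x _ (hαM x)))
  -- at `z`
  have hSz : X.rs z (S.eq z) = 0 := by
    by_contra h1
    exact hS.nun z specializes_rfl ((rs_ne z (hS.eff z)).1 h1)
  have hdS : δ (S.eq z) ∈ X.O z := by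
    have h1 := (X.O z).mul_mem (hst z _ (hS.eff z)) hEu.2.2
    have h2 := E.ne z
    have h3 : E.eq z * δ (S.eq z) * (E.eq z)⁻¹ = δ (S.eq z) := by field_simp
    rwa [h3] at h1
  have hz : X.rs z (g * (S * B).eq z ^ 2 * E.eq z) ≠ 0 := by
    have h1 : α * (S * B).eq z * (E.eq z * δ (f * (S * B).eq z)) =
        S.eq z * (α * B.eq z * (E.eq z * δ (f * (S * B).eq z))) := by
      rw [eα]
      ring
    have h2 : f * (S * B).eq z * (E.eq z * δ (α * (S * B).eq z)) =
        f * (S * B).eq z * (α * B.eq z) * E.eq z * δ (S.eq z) +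
          S.eq z * (f * (S * B).eq z * (E.eq z * δ (α * B.eq z))) := by
      rw [eα, Derivation.leibniz, smul_eq_mul, smul_eq_mul]
      ring
    have m1 : α * B.eq z * (E.eq z * δ (f * (S * B).eq z)) ∈ X.O z := (X.O z).mul_mem (hαB z) (hst z _ (hfM z))
    have m2 : f * (S * B).eq z * (E.eq z * δ (α * B.eq z)) ∈ X.O z := (X.O z).mul_mem (hfM z) (hst z _ (hαB z))
    have m3 : f * (S * B).eq z * (α * B.eq z) * E.eq z ∈ X.O z :=
      (X.O z).mul_mem ((X.O z).mul_mem (hfM z) (hαB z)) (hE z)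
    have m4 := (X.O z).mul_mem m3 hdS
    have m5 := (X.O z).mul_mem (hS.eff z) m2
    have m6 := (X.O z).mul_mem (hS.eff z) m1
    have m7 := (X.O z).add_mem m4 m5
    -- the sum
    have h3 : X.rs z (g * (S * B).eq z ^ 2 * E.eq z) +
        X.rs z (f * (S * B).eq z * (α * B.eq z) * E.eq z * δ (S.eq z) +
          S.eq z * (f * (S * B).eq z * (E.eq z * δ (α * B.eq z)))) = 0 := by
      rw [← rs_add z (hmem z) m7, id0, h1, h2, sub_add_cancel, rs_mul z (hS.eff z) m1, hSz, zero_mul]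
    rw [rs_add z m4 m5, rs_mul z (hS.eff z) m2, hSz, zero_mul, add_zero, rs_mul z m3 hdS] at h3
    intro h4
    rw [h4, zero_add] at h3
    rcases mul_eq_zero.1 h3 with h5 | h5
    · have h6 : Un (X.O z) (f * (S * B).eq z * (α * B.eq z) * E.eq z) := by
        refine ⟨mul_ne_zero (mul_ne_zero hfu.1 hαu.1) hEu.1, m3, ?_⟩
        rw [mul_inv, mul_inv]
        exact (X.O z).mul_mem ((X.O z).mul_mem hfu.2.2 hαu.2.2) hEu.2.2
      exact (rs_ne z m3).2 h6 h5
    · exact hδ h5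
  have hg0 : g ≠ 0 := by
    intro h1
    apply hz
    rw [h1, zero_mul, zero_mul, rs_zero]
  have heq : ∀ x, (prin X g hg0 * (S * B) ^ 2 * E).eq x = g * (S * B).eq x ^ 2 * E.eq x := fun x => by
    rw [mul_eq, mul_eq, pow_eq]
    rfl
  refine ⟨g, hg0, fun x => by rw [heq]; exact hmem x, by rw [heq]; exact (rs_ne z (hmem z)).1 hz, ?_⟩
  intro y hy d t hJ μ hv
  rw [heq, id0]
  have v1 : Vn X y d (μ + 1) (α * (S * B).eq y) := by
    rw [eα]
    exact vn_ulW hJ hv (hαB y)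
  have v2 : Vn X y d μ (((E.eq y) • δ) (α * (S * B).eq y)) :=
    vn_der hSm h hy hJ ((E.eq y) • δ) (fun a ha => hst y a ha) v1
  refine vn_subW hJ ?_ (vn_ulW hJ v2 (hfM y))
  rw [mul_comm]
  exact vn_antiW (Nat.le_succ μ) (vn_ulW hJ v1 (hst y _ (hfM y)))

end Pool.Agent.H47.KN
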