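import Pool.Agent.H47.KN.Mul
import Pool.Agent.H47.KN.Ed
import Pool.Agent.H47.KN.Gz
import Pool.Agent.H47.KN.F2
import Pool.Agent.H47.KN.Wrn

/-!
# [H47 KN Sq] K3 fibrations (MP_e49dc9_ag): the square of the multiplicity of a prime divisor along a horizontal curve

`mu_sq`: `μ (μ - 1) ≤ C (T(F,S,S)⁺ + T(F,A,S))`.  `sq_low`: `- C T(F,A,S) ≤ T(F,S,S)`, `S` horizontal.

PROOF.  The Wronskian `R` (`wrn`) of a section of `S + m A + n F` which does not vanish on `S` (`ex_f2`) and of the equation of `S`; `cntF` for `S` and `R`.  The prime divisors in the divisor `E` of the poles of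
the derivations: `mul`.
-/

set_option autoImplicit false

namespace Pool.Agent.H47.KN

open Pool.Agent.H54.RV Pool.Agent.H83.TU Pool.Agent.H83.TK Pool.Agent.H20.TD Pool.Agent.H20.TP Pool.Agent.H32.KF
open Pool.Agent.H89.RS Pool.Agent.H43.WR
open Pool.Agent.H24.VP (RR)

variable {k K : Type} [Field k] [Field K] [Algebra k K] {X : Mod k K}
  {T : Cart X → Cart X → Cart X → ℝ} {l : Cart X → ℝ} {c : ℝ} {A F : Cart X} {u : K}

theorem sec_pow' {D : Cart X} {s : K} (hs : Sec D 1 s) (n : ℕ) : Sec (D ^ n) 1 (s ^ n) := by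
  intro x
  have h1 := (X.O x).pow_mem (hs x) n
  rw [pow_one] at h1 ⊢
  rwa [mul_pow, ← pow_eq] at h1

/-- an effective divisor which contains a prime divisor -/
theorem eff_quo (hX : IsVar X) {z : X.P} {S E : Cart X} (hS : SPr X z S) (hE : Effective E)
    (hEz : ¬ Un (X.O z) (E.eq z)) : Effective (E * S⁻¹) := by
  intro w
  have h2 : (E * S⁻¹).eq w = E.eq w / S.eq w := by rw [mul_eq, inv_eq, div_eq_mul_inv]
  rw [h2, hS.mem_iff hX w (hE w)]
  intro hw h3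
  apply hEz
  have h4 := quo_un E z w hw
  have e1 : E.eq z = E.eq w * (E.eq w / E.eq z)⁻¹ := by
    have := E.ne w
    have := E.ne z
    field_simp
  rw [e1]
  exact un_mul h3 (un_inv h4)

theorem nnF [CharZero k] [T0Space X.P] (h : Hyp X) (hr : RR T l c) (hA : Ample A)
    (hF : ∀ B : Cart X, Ample B → Ample (B * F)) {S : Cart X} (hS : Effective S) : 0 ≤ T F A S :=
  Pool.Agent.H24.VP.nn_eff h hr (N := F) hF hA hS

/-- the members of the pencil do not contain a horizontal prime divisor -/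
theorem horF [CharZero k] [T0Space X.P] (h : Hyp X) (hr : RR T l c) (hA : Ample A)
    (hF : ∀ B : Cart X, Ample B → Ample (B * F)) (hP : Pu X F u) (hFF : ∀ D, T F F D = 0) {z : X.P} {S : Cart X}
    (hS : SPr X z S) (hAS : 0 < T F A S) : Un (X.O z) (F.eq z) := by
  by_contra hcon
  have h1 := nnF h hr hA hF (eff_quo h.var hS (fun x => hP.one x) hcon)
  rw [hr.tri.add3, hr.tri.inv3, hr.tri.s23, hFF] at h1
  linarith

theorem sq_core [CharZero k] [IsAlgClosed k] [T0Space X.P] (hSm : Pool.Agent.H20.TU.SmP X) (h : Hyp X) (hr : RR T l c)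
    (hA : Ample A) (hF : ∀ B : Cart X, Ample B → Ample (B * F)) (hP : Pu X F u)
    (hFF : ∀ D, T F F D = 0) (hFA : 0 < T F A A) (hcur : ∃ y : X.P, Algebra.trdeg k (X.kap y) = 1) :
    ∃ (E : Cart X) (C₁ : ℝ), Effective E ∧ 0 ≤ C₁ ∧ ∀ (P : PDiv X) (S : Cart X), SPr X P.η S → 0 < T F A S →
      Un (X.O P.η) (E.eq P.η) → ∃ R : Cart X, Effective R ∧ Un (X.O P.η) (R.eq P.η) ∧
        T F S R ≤ max (2 * T F S S) (T F S S) + C₁ * T F A S ∧
        ∀ {y : X.P}, Algebra.trdeg k (X.kap y) = 1 → ∀ {d : Fin 2 → Derivation k K K} {t : Fin 2 → K}, Jet X y d t →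
          ∀ μ : ℕ, Vn X y d (μ + 1) (S.eq y) → Vn X y d μ (R.eq y) := by
  have ht := hr.tri
  obtain ⟨y₀, hy₀⟩ := hcur
  obtain ⟨θ, x, hθ⟩ := ex_jet3 hSm h hy₀
  obtain ⟨E, hE, hEst, hEx⟩ := ex_ed h θ x
  obtain ⟨b, hb1, hbA, hbpf⟩ := exists_bpf h.var hA
  have hb0 : (0 : ℝ) < b := by exact_mod_cast hb1
  obtain ⟨c₀, hc₀, hf2⟩ := ex_f2 h hr hbA hF hP hFF (by
    rw [ht.pow2, ht.pow3]
    positivity)
  obtain ⟨e, he, hAE⟩ := ample_add h.var A E⁻¹ hA
  refine ⟨E, c₀ * b + e, hE, by positivity, fun P S hS hAS hEz => ?_⟩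
  have hFz := horF h hr hA hF hP hFF hS hAS
  obtain ⟨a, ha⟩ : ∃ a, a = T F A S := ⟨_, rfl⟩
  rw [← ha] at hAS ⊢
  obtain ⟨i, hi⟩ := der_prm hθ.dual (trdeg_pdiv h P) hS (fun i => by
      have h1 := hEx P.η i
      rw [mul_comm] at h1
      exact (mem_mul_un hEz).1 h1) (fun i f hf => by
      have h1 := hEst P.η i f hf
      rw [mul_comm] at h1
      exact (mem_mul_un hEz).1 h1)
  obtain ⟨m, j, f, hf1, hfu, hineq⟩ := hf2 P.η S hS (by
    rw [ht.pow2, ← ha]
    positivity)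
  obtain ⟨β, hβ1, hβ2⟩ := hbpf P.η
  have hβ3 : Un (X.O P.η) (β * (A ^ b).eq P.η) := by
    have h1 : Un (X.O P.η) (β * (A ^ b).eq P.η ^ 1) := hβ2
    rwa [pow_one] at h1
  have hα : Sec ((A ^ b) ^ m * F ^ j) 1 (β ^ m) := by
    intro w
    have h1 := sec_pow' hβ1 m w
    rw [pow_one] at h1 ⊢
    rw [mul_eq, ← mul_assoc]
    refine (X.O w).mul_mem h1 ?_
    rw [pow_eq]
    exact (X.O w).pow_mem (hP.one w) j
  have hαu : Un (X.O P.η) (β ^ m * ((A ^ b) ^ m * F ^ j).eq P.η) := by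
    rw [mul_eq, pow_eq (A ^ b) m, pow_eq F j, ← mul_assoc, ← mul_pow]
    exact un_mul (un_pow hβ3 m) (un_pow hFz j)
  obtain ⟨g', hg', w1, w2, w3⟩ := wrn hSm h hS hα hαu (by rwa [← mul_assoc]) (by rwa [← mul_assoc]) (θ i) hE hEz
    (fun w a' ha' => hEst w i a' ha') hi
  refine ⟨_, w1, w2, ?_, w3⟩
  have e1 : T F S F = 0 := by rw [ht.s23, hFF]
  have e2 : T F S (prin X g' hg' * (S * ((A ^ b) ^ m * F ^ j)) ^ 2 * E) =
      2 * (T F S S + m * (b * a)) + T F S E := by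
    simp only [ht.add3, ht.pow3, prinT h hr, e1]
    rw [ht.s23 F S A, ← ha]
    push_cast
    ring
  have e3 : T F (A ^ b) S = b * a := by rw [ht.pow2, ha]
  have e4 : T F S E ≤ e * a := by
    have h2 := Pool.Agent.H24.VP.nn_eff h hr (N := F) hF hAE hS.eff
    rw [ht.add2, ht.pow2, ht.inv2, ← ha, ht.s23 F E S] at h2
    linarith
  rw [e3] at hineq
  rw [e2]
  linarith

/-- two equations of the same prime divisor -/
theorem spr_T [CharZero k] [T0Space X.P] (h : Hyp X) (hr : RR T l c) {z : X.P} {S S' : Cart X} (hS : SPr X z S)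
    (hS' : SPr X z S') : T F S S = T F S' S' := by
  have key : ∀ {S S' : Cart X}, SPr X z S → SPr X z S' → Effective (S * S'⁻¹) := fun {S S'} h1 h2 =>
    eff_quo h.var h2 h1.eff (h1.nun z specializes_rfl)
  have h1 := key hS hS'
  have h2 : Effective (S * S'⁻¹)⁻¹ := by
    rw [mul_inv, inv_inv, mul_comm]
    exact key hS' hS
  have h3 : ∀ B C, T B (S * S'⁻¹) C = 0 := fun B C => by
    rw [hr.tri.s12]
    exact Pool.Agent.H24.VP.triv_T h hr h1 h2 B C
  have e : S = S * S'⁻¹ * S' := by rw [inv_mul_cancel_right]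
  have h4 : ∀ B C, T B S C = T B S' C := fun B C => by
    conv_lhs => rw [e]
    rw [hr.tri.add2, h3, zero_add]
  rw [h4, hr.tri.s23, h4]

theorem sq_low [CharZero k] [IsAlgClosed k] [T0Space X.P] (hSm : Pool.Agent.H20.TU.SmP X) (h : Hyp X) (hr : RR T l c)
    (hA : Ample A) (hF : ∀ B : Cart X, Ample B → Ample (B * F)) (hP : Pu X F u)
    (hFF : ∀ D, T F F D = 0) (hFA : 0 < T F A A) (hcur : ∃ y : X.P, Algebra.trdeg k (X.kap y) = 1) :
    ∃ C : ℝ, 0 ≤ C ∧ ∀ (P : PDiv X) (S : Cart X), SPr X P.η S → 0 < T F A S → -(C * T F A S) ≤ T F S S := by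
  obtain ⟨E, C₁, hE, hC₁, hcore⟩ := sq_core hSm h hr hA hF hP hFF hFA hcur
  obtain ⟨y₀, hy₀⟩ := hcur
  obtain ⟨d₀, t₀, hJ₀⟩ := ex_jet hSm h hy₀
  obtain ⟨Ls, U, h1, h2, h3, h4⟩ := Pool.Agent.H24.VP.fac_eff h hr hE
  obtain ⟨M, hM⟩ : ∃ M, M = (Ls.map fun p => |T F p.2 p.2|).sum := ⟨_, rfl⟩
  have hM0 : 0 ≤ M := by
    rw [hM]
    refine List.sum_nonneg fun x hx => ?_
    obtain ⟨p, -, rfl⟩ := List.mem_map.1 hx
    exact abs_nonneg _
  refine ⟨C₁ + M, by positivity, fun P S hS hAS => ?_⟩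
  by_cases hEz : Un (X.O P.η) (E.eq P.η)
  · obtain ⟨R, hR, hRz, hTR, -⟩ := hcore P S hS hAS hEz
    have h5 := cntF h hr hA hF hy₀ hJ₀ hS.eff hR (cop_prm h hS hRz) (vn_zero_iff (hS.eff y₀)) (vn_zero_iff (hR y₀))
    push_cast at h5
    rw [zero_mul, zero_mul] at h5
    have h6 : 0 ≤ M * T F A S := by positivity
    rcases le_total (T F S S) 0 with h7 | h7
    · rw [max_eq_right (by linarith)] at hTR
      linarith
    · have h8 : 0 ≤ C₁ * T F A S := by positivity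
      linarith
  · -- a component of `E`
    obtain ⟨p, hp, hpz⟩ : ∃ p ∈ Ls, ¬ Un (X.O P.η) (p.2.eq P.η) := by
      by_contra hcon
      push Not at hcon
      apply hEz
      rw [h4, mul_eq]
      refine un_mul ?_ ⟨U.ne _, h2 _, by
        have := h3 P.η
        rwa [inv_eq] at this⟩
      clear h4 hM
      induction Ls with
      | nil =>
        rw [List.map_nil, List.prod_nil, one_eq]
        exact ⟨one_ne_zero, (X.O P.η).one_mem, by rw [inv_one]; exact (X.O P.η).one_mem⟩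
      | cons p Ls ih =>
        rw [List.map_cons, List.prod_cons, mul_eq]
        exact un_mul (hcon p List.mem_cons_self)
          (ih (fun q hq => h1 q (List.mem_cons_of_mem _ hq)) (fun q hq => hcon q (List.mem_cons_of_mem _ hq)))
    have h5 : p.1.η ⤳ P.η := by
      by_contra hcon
      exact hpz ((h1 p hp).un _ hcon)
    have h6 := Pool.Agent.H89.RT.eq_of_sp h.var h5 (by rw [trdeg_pdiv h, trdeg_pdiv h])
    have h7 := h1 p hp
    rw [h6] at h7
    rw [spr_T (F := F) h hr hS h7]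
    have h8 : |T F p.2 p.2| ≤ M := by
      rw [hM]
      refine List.single_le_sum (fun x hx => ?_) _ (List.mem_map.2 ⟨p, hp, rfl⟩)
      obtain ⟨q, -, rfl⟩ := List.mem_map.1 hx
      exact abs_nonneg _
    have h9 := neg_abs_le (T F p.2 p.2)
    have h10 : (1 : ℝ) ≤ T F A S := by
      obtain ⟨i, hi⟩ := Pool.Agent.H24.VP.t_int hr h.amp F A S
      rw [hi] at hAS ⊢
      have h2 : 0 < i := by exact_mod_cast hAS
      exact_mod_cast h2
    have h11 : M * 1 ≤ M * T F A S := mul_le_mul_of_nonneg_left h10 hM0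
    have h12 : 0 ≤ C₁ * T F A S := by positivity
    linarith

theorem mu_sq [CharZero k] [IsAlgClosed k] [T0Space X.P] (hSm : Pool.Agent.H20.TU.SmP X) (h : Hyp X) (hr : RR T l c)
    (hA : Ample A) (hF : ∀ B : Cart X, Ample B → Ample (B * F)) (hP : Pu X F u)
    (hFF : ∀ D, T F F D = 0) (hFA : 0 < T F A A) (hcur : ∃ y : X.P, Algebra.trdeg k (X.kap y) = 1) :
    ∃ C : ℝ, 0 < C ∧ ∀ (P : PDiv X) (S : Cart X), SPr X P.η S → ∀ {y : X.P}, Algebra.trdeg k (X.kap y) = 1 →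
      0 < dz h.var y F → ∀ {d : Fin 2 → Derivation k K K} {t : Fin 2 → K}, Jet X y d t → ∀ μ : ℕ,
        Vn X y d μ (S.eq y) → (μ : ℝ) * (μ - 1) ≤ C * (max (T F S S) 0 + T F A S) := by
  have ht := hr.tri
  obtain ⟨E, C₁, hE, hC₁, hcore⟩ := sq_core hSm h hr hA hF hP hFF hFA hcur
  obtain ⟨n, hn1, hmul⟩ := mul h hr hA hF hP hFF
  obtain ⟨M₀, hM₀⟩ : ∃ M₀, M₀ = n * T F E A := ⟨_, rfl⟩
  have hM0 : 0 ≤ M₀ := by
    rw [hM₀, ht.s23]
    have := nnF h hr hA hF hE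
    positivity
  refine ⟨M₀ ^ 2 + 2 + C₁, by positivity, fun P S hS y hy hf d t hJ μ hμ => ?_⟩
  obtain ⟨C, hC⟩ : ∃ C, C = M₀ ^ 2 + 2 + C₁ := ⟨_, rfl⟩
  rw [← hC]
  have ha0 : 0 ≤ T F A S := nnF h hr hA hF hS.eff
  obtain ⟨g, hg⟩ : ∃ g, g = max (T F S S) 0 := ⟨_, rfl⟩
  rw [← hg]
  have hg0 : 0 ≤ g := by rw [hg]; exact le_max_right _ _
  have hC0 : 0 ≤ C := by rw [hC]; positivity
  rcases Nat.lt_or_ge μ 2 with hμ2 | hμ2
  · have h1 : (μ : ℝ) ≤ 1 := by exact_mod_cast Nat.lt_succ_iff.1 hμ2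
    have h2 : (0 : ℝ) ≤ μ := Nat.cast_nonneg _
    have h3 : 0 ≤ C * (g + T F A S) := by positivity
    nlinarith
  have hμr : (2 : ℝ) ≤ μ := by exact_mod_cast hμ2
  -- `T(F,A,S) ≥ 1`
  have hmS := hmul hy hf hJ hS.eff μ hμ
  have hAS : 0 < T F A S := by
    by_contra hcon
    push Not at hcon
    have h2 : T F A S = 0 := le_antisymm hcon ha0
    rw [ht.s23, h2, mul_zero] at hmS
    linarith
  have ha1 : 1 ≤ T F A S := by
    obtain ⟨i, hi⟩ := Pool.Agent.H24.VP.t_int hr h.amp F A S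
    rw [hi] at hAS ⊢
    have h2 : 0 < i := by exact_mod_cast hAS
    exact_mod_cast h2
  by_cases hEz : Un (X.O P.η) (E.eq P.η)
  swap
  · -- a component of `E`
    have h2 : T F E A = T F S A + T F (E * S⁻¹) A := by
      rw [← ht.add2]
      congr 1
      rw [mul_comm E, mul_inv_cancel_left]
    have h3 := nnF h hr hA hF (eff_quo h.var hS hE hEz)
    rw [ht.s23] at h3
    have h4 : (μ : ℝ) ≤ M₀ := by
      refine hmS.trans ?_
      rw [hM₀, h2]
      exact mul_le_mul_of_nonneg_left (by linarith) (Nat.cast_nonneg _)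
    have h5 : (μ : ℝ) * (μ - 1) ≤ M₀ ^ 2 := by nlinarith
    have h6 : M₀ ^ 2 ≤ C := by
      rw [hC]
      linarith
    have h7 : C * 1 ≤ C * (g + T F A S) := mul_le_mul_of_nonneg_left (by linarith) hC0
    linarith
  obtain ⟨R, hR, hRz, hTR, hV⟩ := hcore P S hS hAS hEz
  have hv' := hV hy hJ (μ - 1) (by rwa [Nat.sub_add_cancel (by omega)])
  have h1 := cntF h hr hA hF hy hJ hS.eff hR (cop_prm h hS hRz) hμ hv'
  have h2 : ((μ - 1 : ℕ) : ℝ) = μ - 1 := by
    rw [Nat.cast_sub (by omega), Nat.cast_one]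
  rw [h2] at h1
  have h3 : (1 : ℝ) ≤ dz h.var y F := by exact_mod_cast hf
  have h4 : (μ : ℝ) * (μ - 1) * 1 ≤ μ * (μ - 1) * dz h.var y F :=
    mul_le_mul_of_nonneg_left h3 (by nlinarith)
  have h5 : max (2 * T F S S) (T F S S) ≤ 2 * g := by
    rw [hg]
    refine max_le ?_ ?_
    · have := le_max_left (T F S S) 0
      linarith
    · have h6 := le_max_left (T F S S) 0
      have h7 := le_max_right (T F S S) 0
      linarith
  have h6 : 2 * g + C₁ * T F A S ≤ C * (g + T F A S) := by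
    rw [hC]
    have q1 : 0 ≤ M₀ ^ 2 * (g + T F A S) := by positivity
    have q2 : 0 ≤ C₁ * g := by positivity
    nlinarith
  linarith

end Pool.Agent.H47.KN
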