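import Pool.Agent.H43.WR.Def
import Pool.Agent.H24.VP.Pos
import Pool.Agent.H20.TP.Srf
import Pool.Agent.H24.RC.Hl

/-!
# [H47 KN Ub] K3 fibrations (MP_e49dc9_ag): the growth of `h⁰(k A + n F)` in `n`

`Pu X F u` (H43/WR/Def): `1` and `u` are sections of `F` without common zeros; `SPr X z F`: the member `F.eq` of the pencil is a prime divisor with generic point `z`.  `T F F D = 0`.
`ub`: for `k` large `h⁰(k A + n F) ≤ n (k² T(F,A,A) / 2 + l(F)) + C`, `C` independent of `n`.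

PROOF.  (1) `h0 (W * F) 1 ≤ h0 W 1 + hz z (W * F)` for every `W` (the kernel of `resS hX z (W * F) 1` consists of sections which vanish at `z`; they are sections of `W`: `SPr.ker`/`mem_iff` as in
`h0_le`-like lemmas of H20/TP/Srf, H24/TK or H39/TK; see also `rk1` in H32/KF/Rk1; finite-dimensional: `Pool.Agent.H24.TK.fd`, `fd_sub`).
(2) `hz z (W * F ^ n) = hz z W`: at the points `x` of the closure of `z` `F.eq x` is not a unit (`SPr.nun`), so `u * F.eq x` is a unit (`Pu.bpf`): multiplication by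
`X.rs z (u * F.eq z) ^ n` (not zero) maps the sections of `resD hX z W` onto those of `resD hX z (W * F ^ n)` up to inversion: `h0` of `resD z F` times a principal divisor (`Pool.Agent.H41.TK.h0_prin`) or two
injective linear maps.
(3) For `k` large `hz z (A ^ k) = h0 (A ^ k) 1 - h0 (A ^ k * F⁻¹) 1` (`resS` is onto for `k` large: `ser_ample` with `W = 1`; its kernel is `secL (A ^ k * F⁻¹) 1` by (1)) `= chi (A ^ k) - chi (F⁻¹ * A ^ k)`
(`hr.ev 1 A`, `hr.ev F⁻¹ A`) `= chS T l F (A ^ k)` (`hr.chi_sub`) `= k² T(A,A,F)/2 + l F` (definition of `chS`, `hFF`, `hr.tri.pow` ..).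
(4) Sum over `n` steps: `h0 (A ^ k * F ^ n) 1 ≤ h0 (A ^ k) 1 + n * hz z (A ^ k)`.
-/

set_option autoImplicit false

namespace Pool.Agent.H47.KN

open Pool.Agent.H54.RV Pool.Agent.H83.TU Pool.Agent.H83.TK Pool.Agent.H20.TD Pool.Agent.H20.TP Pool.Agent.H43.WR
open Pool.Agent.H24.VP (RR chS chi)

variable {k K : Type} [Field k] [Field K] [Algebra k K] {X : Mod k K}
  {T : Cart X → Cart X → Cart X → ℝ} {l : Cart X → ℝ} {c : ℝ}

/-- a divisor with a section without zeros -/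
private theorem un_le {κ : Type} [Field κ] [Algebra k κ] {Y : Mod k κ} {D E : Cart Y} {σ : κ} (hσ0 : σ ≠ 0)
    (hσ : ∀ x, Un (Y.O x) (σ * E.eq x)) [FiniteDimensional k (secL D 1)] : h0 (D * E) 1 ≤ h0 D 1 := by
  let m : κ →ₗ[k] κ := LinearMap.mulLeft k σ⁻¹
  have hm : Function.Injective m := fun a b hab => mul_left_cancel₀ (inv_ne_zero hσ0) hab
  have h1 : (secL (D * E) 1).map m ≤ secL D 1 := by
    rintro _ ⟨a, ha, rfl⟩
    intro x
    rw [pow_one]
    have h2 := ha x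
    rw [pow_one, mul_eq] at h2
    have h3 := hσ x
    have hE := E.ne x
    have h4 : σ⁻¹ * a * D.eq x = a * (D.eq x * E.eq x) * (σ * E.eq x)⁻¹ := by
      field_simp
    show σ⁻¹ * a * D.eq x ∈ Y.O x
    rw [h4]
    exact (Y.O x).mul_mem h2 h3.2.2
  have h2 := Submodule.finrank_mono h1
  have h3 : Module.finrank k ((secL (D * E) 1).map m) = h0 (D * E) 1 :=
    ((secL (D * E) 1).equivMapOfInjective m hm).finrank_eq.symm
  rw [h3] at h2
  exact h2

/-- the member `F` of the pencil does not meet itself -/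
private theorem hz_F [CharZero k] (h : Hyp X) {F : Cart X} {u : K} (hP : Pu X F u) {z : X.P} (hz : SPr X z F)
    (W : Cart X) : Pool.Agent.H20.TP.hz h.var z (W * F) ≤ Pool.Agent.H20.TP.hz h.var z W := by
  obtain ⟨A, hA⟩ := h.amp
  have hfs : ∀ W : Cart (subM h.var z), FiniteDimensional k (secL W 1) := fd_sub h.var hA z
  have hun : ∀ x : X.P, z ⤳ x → Un (X.O x) (u * F.eq x) := by
    intro x hx
    rcases hP.bpf x with h1 | h1
    · have hle := h.var.spec z x hx
      exact absurd ⟨h1.1, hle h1.2.1, hle h1.2.2⟩ (hz.nun x hx)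
    · exact h1
  have hσ0 : X.rs z (u * F.eq z) ≠ 0 := (rs_ne z (hP.sec z)).2 (hun z specializes_rfl)
  have hux : ∀ x : (subM h.var z).P, Un ((subM h.var z).O x) (X.rs z (u * F.eq z) * (resD h.var z F).eq x) := by
    intro x
    have e1 := rs_sec h.var z F 1 u x (by rw [pow_one]; exact hP.sec x.1)
    rw [pow_one, pow_one, pow_one] at e1
    rw [e1]
    exact (un_subO h.var x.2 (hP.sec x.1)).2 (hun x.1 x.2)
  have := hfs (resD h.var z W)
  have h1 := un_le (D := resD h.var z W) hσ0 hux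
  rw [← map_mul] at h1
  exact h1

theorem ub [CharZero k] (h : Hyp X) (hr : RR T l c) {A F : Cart X} (hA : Ample A) {u : K} (hP : Pu X F u)
    {z : X.P} (hz : SPr X z F) (hFF : ∀ D, T F F D = 0) :
    ∃ k₂ : ℕ, ∀ m ≥ k₂, ∃ C : ℝ, ∀ n : ℕ, (h0 (A ^ m * F ^ n) 1 : ℝ) ≤ n * ((m : ℝ) ^ 2 * T F A A / 2 + l F) + C := by
  obtain ⟨k₂, hk₂⟩ := ev_srf h hr hz 1 A hA
  refine ⟨k₂, fun m hm => ⟨h0 (A ^ m) 1, fun n => ?_⟩⟩
  have e1 := hk₂ m hm
  rw [one_mul] at e1
  have e2 : chS T l F (A ^ m) = (m : ℝ) ^ 2 * T F A A / 2 + l F := by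
    unfold chS
    rw [hr.tri.pow, hr.tri.pow2, hr.tri.pow, hr.tri.s12 A F F, hr.tri.s23 F A F, hFF, hFF, hr.tri.s23 A A F,
      hr.tri.s12 A F A]
    ring
  rw [e2] at e1
  have hz2 : ∀ n : ℕ, Pool.Agent.H20.TP.hz h.var z (A ^ m * F ^ n) ≤ Pool.Agent.H20.TP.hz h.var z (A ^ m) := by
    intro n
    induction n with
    | zero => rw [pow_zero, mul_one]
    | succ n ih =>
      rw [pow_succ, ← mul_assoc]
      exact (hz_F h hP hz _).trans ih
  induction n with
  | zero => simp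
  | succ n ih =>
    have h1 := Pool.Agent.H24.RC.h0_le_z h hz (A ^ m * F ^ (n + 1))
    have h2 : A ^ m * F ^ (n + 1) * F⁻¹ = A ^ m * F ^ n := by
      rw [pow_succ, ← mul_assoc, mul_inv_cancel_right]
    rw [h2] at h1
    have h3 := hz2 (n + 1)
    have h4 : (h0 (A ^ m * F ^ (n + 1)) 1 : ℝ) ≤ h0 (A ^ m * F ^ n) 1 + (Pool.Agent.H20.TP.hz h.var z (A ^ m) : ℝ) := by
      exact_mod_cast h1.trans (Nat.add_le_add_left h3 _)
    rw [← e1] at ih ⊢
    push_cast
    linarith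

end Pool.Agent.H47.KN
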