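import Pool.Agent.H47.KN.Ub
import Pool.Agent.H24.RC.FOne

/-!
# [H47 KN Ubg] K3 fibrations (MP_e49dc9_ag): the growth of `h⁰(k A + n F)` in `n`, any pencil without base points

As `ub`, without a prime member of the pencil: the prime factors `S` of `F` one after the other; `u` is a section of `F` without zeros on them.
-/

set_option autoImplicit false

namespace Pool.Agent.H47.KN

open Pool.Agent.H54.RV Pool.Agent.H83.TU Pool.Agent.H83.TK Pool.Agent.H20.TD Pool.Agent.H20.TP Pool.Agent.H43.WR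
open Pool.Agent.H24.VP (RR chS chi)

variable {k K : Type} [Field k] [Field K] [Algebra k K] {X : Mod k K}
  {T : Cart X → Cart X → Cart X → ℝ} {l : Cart X → ℝ} {c : ℝ} {A F : Cart X} {u : K}

/-- a divisor with a section without zeros -/
private theorem un_le {κ : Type} [Field κ] [Algebra k κ] {Y : Mod k κ} {D E : Cart Y} {σ : κ} (hσ0 : σ ≠ 0)
    (hσ : ∀ x, Un (Y.O x) (σ * E.eq x)) [FiniteDimensional k (secL D 1)] : h0 (D * E) 1 ≤ h0 D 1 := by
  let m : κ →ₗ[k] κ := LinearMap.mulLeft k σ⁻¹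
  have hm : Function.Injective m := fun a b hab => mul_left_cancel₀ (inv_ne_zero hσ0) hab
  have h1 : (secL (D * E) 1).map m ≤ secL D 1 := by
    rintro _ ⟨a, ha, rfl⟩
    intro x
    rw [pow_one]
    have h2 := ha x
    rw [pow_one, mul_eq] at h2
    have h3 := hσ x
    have hE := E.ne x
    have h4 : σ⁻¹ * a * D.eq x = a * (D.eq x * E.eq x) * (σ * E.eq x)⁻¹ := by
      field_simp
    show σ⁻¹ * a * D.eq x ∈ Y.O x
    rw [h4]
    exact (Y.O x).mul_mem h2 h3.2.2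
  have h2 := Submodule.finrank_mono h1
  have h3 : Module.finrank k ((secL (D * E) 1).map m) = h0 (D * E) 1 :=
    ((secL (D * E) 1).equivMapOfInjective m hm).finrank_eq.symm
  rw [h3] at h2
  exact h2

/-- a surface in a member of the pencil does not meet the other members -/
private theorem hz_F [CharZero k] (h : Hyp X) (hP : Pu X F u) {z : X.P} (hz : ¬ Un (X.O z) (F.eq z))
    (W : Cart X) : Pool.Agent.H20.TP.hz h.var z (W * F) ≤ Pool.Agent.H20.TP.hz h.var z W := by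
  obtain ⟨A, hA⟩ := h.amp
  have hfs : ∀ W : Cart (subM h.var z), FiniteDimensional k (secL W 1) := fd_sub h.var hA z
  have hun : ∀ x : X.P, z ⤳ x → Un (X.O x) (u * F.eq x) := by
    intro x hx
    rcases hP.bpf x with h1 | h1
    · exfalso
      apply hz
      have hle := h.var.spec z x hx
      have h4 := quo_un F z x hx
      have e1 : F.eq z = F.eq x * (F.eq x / F.eq z)⁻¹ := by
        have := F.ne x
        have := F.ne z
        field_simp
      rw [e1]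
      exact un_mul ⟨h1.1, hle h1.2.1, hle h1.2.2⟩ (un_inv h4)
    · exact h1
  have hσ0 : X.rs z (u * F.eq z) ≠ 0 := (rs_ne z (hP.sec z)).2 (hun z specializes_rfl)
  have hux : ∀ x : (subM h.var z).P, Un ((subM h.var z).O x) (X.rs z (u * F.eq z) * (resD h.var z F).eq x) := by
    intro x
    have e1 := rs_sec h.var z F 1 u x (by rw [pow_one]; exact hP.sec x.1)
    rw [pow_one, pow_one, pow_one] at e1
    rw [e1]
    exact (un_subO h.var x.2 (hP.sec x.1)).2 (hun x.1 x.2)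
  have := hfs (resD h.var z W)
  have h1 := un_le (D := resD h.var z W) hσ0 hux
  rw [← map_mul] at h1
  exact h1

private theorem hz_Fn [CharZero k] (h : Hyp X) (hP : Pu X F u) {z : X.P} (hz : ¬ Un (X.O z) (F.eq z))
    (W : Cart X) (n : ℕ) : Pool.Agent.H20.TP.hz h.var z (W * F ^ n) ≤ Pool.Agent.H20.TP.hz h.var z W := by
  induction n with
  | zero => rw [pow_zero, mul_one]
  | succ n ih =>
    rw [pow_succ, ← mul_assoc]
    exact (hz_F h hP hz _).trans ih

/-- the prime factors one after the other -/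
private theorem ub_list [CharZero k] (h : Hyp X) (hr : RR T l c) (hA : Ample A) (hP : Pu X F u)
    (L : List (PDiv X × Cart X)) (hL : ∀ p ∈ L, SPr X p.1.η p.2 ∧ ¬ Un (X.O p.1.η) (F.eq p.1.η)) (V : Cart X) :
    ∃ k₂ : ℕ, ∀ m ≥ k₂, ∀ n : ℕ, (h0 (V * A ^ m * F ^ n) 1 : ℝ) ≤
      h0 (V * ((L.map Prod.snd).prod)⁻¹ * A ^ m * F ^ n) 1 +
        (chi T l c (V * A ^ m) - chi T l c (V * ((L.map Prod.snd).prod)⁻¹ * A ^ m)) := by
  induction L generalizing V with
  | nil =>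
    refine ⟨0, fun m _ n => ?_⟩
    rw [List.map_nil, List.prod_nil, inv_one, mul_one]
    linarith
  | cons p L ih =>
    obtain ⟨h1, h2⟩ := hL p List.mem_cons_self
    obtain ⟨k₁, hk₁⟩ := ev_srf h hr h1 V A hA
    obtain ⟨k₂, hk₂⟩ := ih (fun q hq => hL q (List.mem_cons_of_mem _ hq)) (V * p.2⁻¹)
    refine ⟨k₁ + k₂, fun m hm n => ?_⟩
    have e1 := hk₁ m (by omega)
    have e2 := hk₂ m (by omega) n
    have e3 := Pool.Agent.H24.RC.h0_le_z h h1 (V * A ^ m * F ^ n)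
    have e4 := hz_Fn h hP h2 (V * A ^ m) n
    have e5 : V * A ^ m * F ^ n * p.2⁻¹ = V * p.2⁻¹ * A ^ m * F ^ n := by
      rw [mul_right_comm, mul_right_comm V (A ^ m) p.2⁻¹]
    rw [e5] at e3
    have e6 : V * ((p :: L).map Prod.snd).prod⁻¹ = V * p.2⁻¹ * ((L.map Prod.snd).prod)⁻¹ := by
      rw [List.map_cons, List.prod_cons, mul_inv, ← mul_assoc]
    rw [e6]
    have e7 := hr.chi_sub p.2 (V * A ^ m)
    have e8 : V * A ^ m * p.2⁻¹ = V * p.2⁻¹ * A ^ m := mul_right_comm _ _ _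
    rw [e8] at e7
    dsimp only at e1
    have e9 : (h0 (V * A ^ m * F ^ n) 1 : ℝ) ≤ h0 (V * p.2⁻¹ * A ^ m * F ^ n) 1 +
        (Pool.Agent.H20.TP.hz h.var p.1.η (V * A ^ m) : ℝ) := by
      exact_mod_cast e3.trans (Nat.add_le_add_left e4 _)
    rw [e1] at e9
    linarith

theorem ubg [CharZero k] [T0Space X.P] (h : Hyp X) (hr : RR T l c) (hA : Ample A) (hP : Pu X F u)
    (hFF : ∀ D, T F F D = 0) :
    ∃ k₂ : ℕ, ∀ m ≥ k₂, ∃ C : ℝ, ∀ n : ℕ, (h0 (A ^ m * F ^ n) 1 : ℝ) ≤ n * ((m : ℝ) ^ 2 * T F A A / 2 + l F) + C := by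
  have hFE : Effective F := fun x => hP.one x
  obtain ⟨Ls, U, h1, h2, h3, h4⟩ := Pool.Agent.H24.VP.fac_eff h hr hFE
  obtain ⟨G, hG⟩ : ∃ G, G = (Ls.map Prod.snd).prod := ⟨_, rfl⟩
  rw [← hG] at h4
  have hLF : ∀ p ∈ Ls, SPr X p.1.η p.2 ∧ ¬ Un (X.O p.1.η) (F.eq p.1.η) := by
    intro p hp
    refine ⟨h1 p hp, fun hu => ?_⟩
    have hz := (h1 p hp).nun p.1.η specializes_rfl
    apply hz
    -- `p.2` divides `F`
    have hdiv : ∀ L : List (PDiv X × Cart X), (∀ q ∈ L, SPr X q.1.η q.2) → p ∈ L →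
        ∃ b ∈ X.O p.1.η, (L.map Prod.snd).prod.eq p.1.η = p.2.eq p.1.η * b := by
      intro L
      induction L with
      | nil => intro _ h5; exact absurd h5 List.not_mem_nil
      | cons q L ih =>
        intro hq h5
        rw [List.map_cons, List.prod_cons, mul_eq]
        have hLe : (L.map Prod.snd).prod.eq p.1.η ∈ X.O p.1.η :=
          Pool.Agent.H32.RT.eff_lprod (fun q' hq' => hq q' (List.mem_cons_of_mem _ hq')) p.1.η
        rcases List.mem_cons.1 h5 with h6 | h6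
        · rw [← h6]
          exact ⟨_, hLe, rfl⟩
        · obtain ⟨b, hb, e⟩ := ih (fun q' hq' => hq q' (List.mem_cons_of_mem _ hq')) h6
          refine ⟨q.2.eq p.1.η * b, (X.O _).mul_mem ((hq q List.mem_cons_self).eff _) hb, ?_⟩
          rw [e]
          ring
    obtain ⟨b, hb, e⟩ := hdiv Ls h1 hp
    rw [h4, mul_eq, hG, e, mul_assoc] at hu
    exact ((un_mul_iff ((h1 p hp).eff _) ((X.O _).mul_mem hb (h2 _))).1 hu).1
  obtain ⟨k₀, hk₀⟩ := ub_list h hr hA hP Ls hLF 1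
  obtain ⟨k₁, hk₁⟩ := hr.ev F⁻¹ A hA
  obtain ⟨k₂, hk₂⟩ := hr.ev G⁻¹ A hA
  refine ⟨k₀ + k₁ + k₂, fun m hm => ⟨h0 (A ^ m) 1, fun n => ?_⟩⟩
  have hchi : chi T l c (G⁻¹ * A ^ m) = chi T l c (F⁻¹ * A ^ m) := by
    rw [← hk₁ m (by omega), ← hk₂ m (by omega)]
    have e1 : F⁻¹ * A ^ m = G⁻¹ * A ^ m * U⁻¹ := by
      rw [h4, mul_inv, mul_right_comm]
    rw [e1, Pool.Agent.H24.RC.h0_triv h2 h3]
  have e2 : chS T l F (A ^ m) = (m : ℝ) ^ 2 * T F A A / 2 + l F := by
    unfold chS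
    rw [hr.tri.pow, hr.tri.pow2, hr.tri.pow, hr.tri.s12 A F F, hr.tri.s23 F A F, hFF, hFF, hr.tri.s23 A A F,
      hr.tri.s12 A F A]
    ring
  induction n with
  | zero => simp
  | succ n ih =>
    have h5 := hk₀ m (by omega) (n + 1)
    rw [← hG, one_mul, one_mul, hchi] at h5
    have h6 := hr.chi_sub F (A ^ m)
    rw [mul_comm (A ^ m) F⁻¹, e2] at h6
    have h7 : h0 (G⁻¹ * A ^ m * F ^ (n + 1)) 1 = h0 (A ^ m * F ^ n) 1 := by
      have e3 : A ^ m * F ^ n = G⁻¹ * A ^ m * F ^ (n + 1) * U⁻¹ := by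
        have e4 : G⁻¹ * U⁻¹ = F⁻¹ := by rw [h4, mul_inv]
        calc A ^ m * F ^ n = F⁻¹ * (A ^ m * F ^ (n + 1)) := by
              rw [pow_succ, ← mul_assoc (A ^ m), mul_comm F⁻¹, mul_inv_cancel_right]
          _ = G⁻¹ * A ^ m * F ^ (n + 1) * U⁻¹ := by
              rw [← e4, mul_assoc G⁻¹ (A ^ m), mul_right_comm]
      rw [e3, Pool.Agent.H24.RC.h0_triv h2 h3]
    rw [h7] at h5
    rw [← h6] at ih ⊢
    push_cast
    linarith

end Pool.Agent.H47.KN
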