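import Pool.Agent.H43.WR.Jt3
import Pool.Agent.H89.RS.Wrd

/-!
# [H47 KN Vd] K3 fibrations (MP_e49dc9_ag): a derivation lowers the order along a curve by at most one

`vn_der`: `δ` a derivation of `K` over `k` which preserves the local ring at `y`; the derivatives (for a `Jet` at `y`, H89/RS/Def) of order `≤ n` of `f` vanish at `y`
⇒ those of order `< n` of `δ f` vanish.

PROOF.  `ex_jet3` (H43/WR/Jt3, may be used as given): `d'`, `t'` with `Jet3 X y d' t'`.
(1) CLAIM: `f ∈ X.O y`, `rs f = 0`, `rs (d 0 f) = rs (d 1 f) = 0` ⇒ `rs (δ f) = 0` for every derivation `δ` which preserves `X.O y`.  By `span`: `δ f = ∑ δ (t' i) * d' i f`, and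
`rs (d' 2 f) = 0` by `tan`; so it suffices that `rs (d' 0 f) = rs (d' 1 f) = 0`.  Put `M j l := rs (d j (t' l))`, `j l : Fin 2` (`t' l` for `l = 0, 1`), `N l i := rs (d' l (t i))`.  By `span` for
`d j` and `g ∈ X.O y` with `rs g = 0`: `rs (d j g) = ∑_(l < 2) M j l * rs (d' l g)` (`tan` kills the term `l = 2`).  For `g = t i` (`Jet.zero`): `δ_ij = ∑_l M j l * N l i`, so the
`2 × 2` matrix `M` is invertible (`M * N = 1`); for `g = f`: `0 = ∑_l M j l * rs (d' l f)`, so `rs (d' l f) = 0`.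
(2) `Vn X y d (n + 1) h ↔ h ∈ X.O y ∧ rs h = 0 ∧ Vn X y d n (d 0 h) ∧ Vn X y d n (d 1 h)` for all `n` (`wd d a b (d 1 h) = wd d a (b + 1) h`, `wd d a b (d 0 h) = wd d (a + 1) b h`:
`wd1`, `wd0` in H16/WR/Tay or `vn_d`, `vn_of` in H89/RS/Wrd, private there: copy).
(3) Induction on `n`, for all `δ` and `f` at once.  `n = 0`: `δ f ∈ X.O y`.  `n + 1`: `Vn (n + 2) f`.  `rs (δ f) = 0` by (1).  `d i (δ f) = δ (d i f) + ⁅d i, δ⁆ f`: `Vn (n + 1) (d i f)` and `Vn (n + 1) f`,
`δ` and the commutator `⁅d i, δ⁆` (`Derivation.commutator_apply`) preserve `X.O y`: induction gives `Vn n` for both terms, so for the sum (`wd_add`, `rs_add`).  (2).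
-/

set_option autoImplicit false

namespace Pool.Agent.H47.KN

open Pool.Agent.H54.RV Pool.Agent.H83.TU Pool.Agent.H83.TK Pool.Agent.H89.RS Pool.Agent.H43.WR

variable {k K : Type} [Field k] [Field K] [Algebra k K] {X : Mod k K}

private theorem vd_s1 (d : Fin 2 → Derivation k K K) (a b : ℕ) (f : K) :
    wd d a (b + 1) f = wd d a b (d 1 f) := by
  unfold wd
  rw [Function.iterate_succ_apply]

private theorem vd_s0 {y : X.P} {d : Fin 2 → Derivation k K K} {t : Fin 2 → K} (hJ : Jet X y d t) (a b : ℕ) (f : K) :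
    wd d (a + 1) b f = wd d a b (d 0 f) := by
  have h : Function.Commute (⇑(d 0)) (⇑(d 1)) := hJ.cm
  have h1 : d 0 ((⇑(d 1))^[b] f) = (⇑(d 1))^[b] (d 0 f) := h.iterate_right b f
  unfold wd
  rw [Function.iterate_succ_apply, h1]

private theorem vd_d {y : X.P} {d : Fin 2 → Derivation k K K} {t : Fin 2 → K} (hJ : Jet X y d t) {n : ℕ} {f : K}
    (hf : Vn X y d (n + 1) f) (i : Fin 2) : Vn X y d n (d i f) := by
  refine ⟨hJ.st i f hf.1, fun a b hab => ?_⟩
  have h : i = 0 ∨ i = 1 := by omega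
  rcases h with h | h
  · subst h
    rw [← vd_s0 hJ]
    exact hf.2 _ _ (by omega)
  · subst h
    rw [← vd_s1]
    exact hf.2 _ _ (by omega)

private theorem vd_anti {y : X.P} {d : Fin 2 → Derivation k K K} {m n : ℕ} (h : m ≤ n) {f : K}
    (hf : Vn X y d n f) : Vn X y d m f := ⟨hf.1, fun a b hab => hf.2 a b (by omega)⟩

private theorem vd_add {y : X.P} {d : Fin 2 → Derivation k K K} {t : Fin 2 → K} (hJ : Jet X y d t) {n : ℕ} {f g : K}
    (hf : Vn X y d n f) (hg : Vn X y d n g) : Vn X y d n (f + g) := by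
  refine ⟨add_mem hf.1 hg.1, fun a b hab => ?_⟩
  rw [wd_add, rs_add y (wd_mem hJ a b hf.1) (wd_mem hJ a b hg.1), hf.2 a b hab, hg.2 a b hab, add_zero]

private theorem vd_of {y : X.P} {d : Fin 2 → Derivation k K K} {t : Fin 2 → K} (hJ : Jet X y d t) {n : ℕ} {f : K}
    (hf : f ∈ X.O y) (h0 : X.rs y f = 0) (h : ∀ i, Vn X y d n (d i f)) : Vn X y d (n + 1) f := by
  refine ⟨hf, fun a b hab => ?_⟩
  cases b with
  | succ b =>
    rw [vd_s1]
    exact (h 1).2 a b (by omega)
  | zero =>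
    cases a with
    | succ a =>
      rw [vd_s0 hJ]
      exact (h 0).2 a 0 (by omega)
    | zero => exact h0

/-- the first derivatives of a function which vanishes at `y` -/
private theorem vd_exp {y : X.P} {d' : Fin 3 → Derivation k K K} {t' : Fin 3 → K} (hd : Jet3 X y d' t')
    (D : Derivation k K K) (hD : ∀ f ∈ X.O y, D f ∈ X.O y) {g : K} (hg : g ∈ X.O y) (h0 : X.rs y g = 0) :
    X.rs y (D g) = X.rs y (D (t' 0)) * X.rs y (d' 0 g) + X.rs y (D (t' 1)) * X.rs y (d' 1 g) := by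
  have m0 := mul_mem (hD _ (hd.mem 0)) (hd.st 0 g hg)
  have m1 := mul_mem (hD _ (hd.mem 1)) (hd.st 1 g hg)
  have m2 := mul_mem (hD _ (hd.mem 2)) (hd.st 2 g hg)
  rw [hd.span D g, Fin.sum_univ_three, rs_add y (add_mem m0 m1) m2, rs_add y m0 m1,
    rs_mul y (hD _ (hd.mem 0)) (hd.st 0 g hg), rs_mul y (hD _ (hd.mem 1)) (hd.st 1 g hg),
    rs_mul y (hD _ (hd.mem 2)) (hd.st 2 g hg), hd.tan g hg h0, mul_zero, add_zero]

private theorem vd_lin {F : Type} [Field F] {a b c e n p q r v w : F} (h1 : a * n + b * q = 1) (h2 : a * p + b * r = 0)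
    (h3 : c * n + e * q = 0) (h4 : c * p + e * r = 1) (h5 : a * v + b * w = 0) (h6 : c * v + e * w = 0) :
    v = 0 ∧ w = 0 := by
  have hd : (a * e - b * c) * (n * r - p * q) = 1 := by
    have e1 : (a * e - b * c) * (n * r - p * q) =
        (a * n + b * q) * (c * p + e * r) - (a * p + b * r) * (c * n + e * q) := by ring
    rw [e1, h1, h2, h3, h4]
    ring
  have hd0 : a * e - b * c ≠ 0 := by
    intro h
    rw [h, zero_mul] at hd
    exact zero_ne_one hd
  constructor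
  · have e2 : (a * e - b * c) * v = 0 := by
      have e3 : (a * e - b * c) * v = e * (a * v + b * w) - b * (c * v + e * w) := by ring
      rw [e3, h5, h6]
      ring
    exact (mul_eq_zero.1 e2).resolve_left hd0
  · have e2 : (a * e - b * c) * w = 0 := by
      have e3 : (a * e - b * c) * w = a * (c * v + e * w) - c * (a * v + b * w) := by ring
      rw [e3, h5, h6]
      ring
    exact (mul_eq_zero.1 e2).resolve_left hd0

private theorem vd_zero {y : X.P} {d : Fin 2 → Derivation k K K} {t : Fin 2 → K} (hJ : Jet X y d t)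
    {d' : Fin 3 → Derivation k K K} {t' : Fin 3 → K} (hd : Jet3 X y d' t')
    (δ : Derivation k K K) (hδ : ∀ f ∈ X.O y, δ f ∈ X.O y) {f : K} (hf : f ∈ X.O y) (h0 : X.rs y f = 0)
    (h1 : ∀ i, X.rs y (d i f) = 0) : X.rs y (δ f) = 0 := by
  have h00 : X.rs y (0 : K) = 0 := by
    have h := rs_add y (zero_mem (X.O y)) (zero_mem (X.O y))
    rw [add_zero] at h
    exact left_eq_add.1 h
  have e : ∀ i j, X.rs y (d i (t' 0)) * X.rs y (d' 0 (t j)) + X.rs y (d i (t' 1)) * X.rs y (d' 1 (t j)) =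
      if i = j then 1 else 0 := by
    intro i j
    rw [← vd_exp hd (d i) (hJ.st i) (hJ.mem j) (hJ.zero j), hJ.dual]
    split_ifs
    · exact rs_one y
    · exact h00
  have e' : ∀ i, X.rs y (d i (t' 0)) * X.rs y (d' 0 f) + X.rs y (d i (t' 1)) * X.rs y (d' 1 f) = 0 := by
    intro i
    rw [← vd_exp hd (d i) (hJ.st i) hf h0, h1]
  have e00 := e 0 0
  have e01 := e 0 1
  have e10 := e 1 0
  have e11 := e 1 1
  rw [if_pos rfl] at e00 e11
  rw [if_neg (by decide)] at e01 e10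
  obtain ⟨hw0, hw1⟩ := vd_lin e00 e01 e10 e11 (e' 0) (e' 1)
  rw [vd_exp hd δ hδ hf h0, hw0, hw1, mul_zero, mul_zero, add_zero]

private theorem vd_ind {y : X.P} {d : Fin 2 → Derivation k K K} {t : Fin 2 → K} (hJ : Jet X y d t)
    {d' : Fin 3 → Derivation k K K} {t' : Fin 3 → K} (hd : Jet3 X y d' t') (n : ℕ) :
    ∀ (δ : Derivation k K K), (∀ f ∈ X.O y, δ f ∈ X.O y) → ∀ f : K, Vn X y d (n + 1) f → Vn X y d n (δ f) := by
  induction n with
  | zero =>
    intro δ hδ f hf
    exact ⟨hδ f hf.1, fun a b hab => absurd hab (Nat.not_lt_zero _)⟩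
  | succ n ih =>
    intro δ hδ f hf
    refine vd_of hJ (hδ f hf.1) ?_ fun i => ?_
    · refine vd_zero hJ hd δ hδ hf.1 (hf.2 0 0 (by omega)) fun i => ?_
      have h : i = 0 ∨ i = 1 := by omega
      rcases h with h | h
      · subst h
        exact hf.2 1 0 (by omega)
      · subst h
        exact hf.2 0 1 (by omega)
    · have e : d i (δ f) = δ (d i f) + ⁅d i, δ⁆ f := by
        rw [Derivation.commutator_apply]
        ring
      rw [e]
      refine vd_add hJ (ih δ hδ _ (vd_d hJ hf i)) (ih ⁅d i, δ⁆ ?_ _ (vd_anti (by omega) hf))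
      intro g hg
      rw [Derivation.commutator_apply]
      exact sub_mem (hJ.st i _ (hδ g hg)) (hδ _ (hJ.st i g hg))

theorem vn_der [CharZero k] [IsAlgClosed k] (hSm : Pool.Agent.H20.TU.SmP X) (h : Hyp X) {y : X.P}
    (hy : Algebra.trdeg k (X.kap y) = 1) {d : Fin 2 → Derivation k K K} {t : Fin 2 → K} (hJ : Jet X y d t)
    (δ : Derivation k K K) (hδ : ∀ f ∈ X.O y, δ f ∈ X.O y) {n : ℕ} {f : K} (hf : Vn X y d (n + 1) f) :
    Vn X y d n (δ f) := by
  obtain ⟨d', t', hd⟩ := ex_jet3 hSm h hy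
  exact vd_ind hJ hd n δ hδ f hf

end Pool.Agent.H47.KN
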